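import Pool.Agent.PHR.Lists

/-!
# The third kind of guess is complete
-/

namespace PHR

open Finset

/-- Agreement of `E` with the assignment `τ` on the list `t`. -/
def Agree (τ : Var → Bool) (E t : List Lit) : Prop := ∀ q ∈ t, (Tr τ q ↔ neg q ∈ E)

/-- Take the shortest suffix on which no element of `N` agrees with `τ` (induction on `V`). -/
theorem exists_suffix {τ : Var → Bool} {N : List (List Lit)} (hN : N ≠ []) (V : List Lit)
    (hV : ∀ E ∈ N, ¬ Agree τ E V) :
    ∃ p c, (p :: c) ∈ V.tails ∧ (∃ D ∈ N, Agree τ D c ∧ ¬ (Tr τ p ↔ neg p ∈ D)) ∧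
      ∀ E ∈ N, ¬ Agree τ E (p :: c) := by
  induction V with
  | nil =>
    exfalso
    obtain ⟨E, hE⟩ := List.exists_mem_of_ne_nil N hN
    exact hV E hE (fun q hq => absurd hq (List.not_mem_nil))
  | cons p c ih =>
    by_cases h : ∀ E ∈ N, ¬ Agree τ E c
    · obtain ⟨p', c', h1, h2, h3⟩ := ih h
      refine ⟨p', c', ?_, h2, h3⟩
      rw [List.tails_cons, List.mem_cons]
      exact Or.inr h1
    · push Not at h
      obtain ⟨D, hD, hA⟩ := h
      refine ⟨p, c, ?_, ⟨D, hD, hA, fun hp => ?_⟩, hV⟩
      · rw [List.tails_cons, List.mem_cons]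
        exact Or.inl rfl
      · apply hV D hD
        intro q hq
        rcases List.mem_cons.1 hq with rfl | hq
        · exact hp
        · exact hA q hq

theorem agr_tr {τ : Var → Bool} {D : List Lit} {q : Lit} (h : Tr τ q ↔ neg q ∈ D) :
    Tr τ (agr D q) := by
  unfold agr
  by_cases hn : neg q ∈ D
  · rw [(mm_iff _ _).2 hn]
    exact h.2 hn
  · have : mm (neg q) D = false := by
      by_contra hh
      exact hn ((mm_iff _ _).1 (by simpa using hh))
    rw [this]
    simp only [cond_false]
    rw [Tr_neg]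
    exact fun ht => hn (h.1 ht)

theorem agr_tr' {τ : Var → Bool} {D : List Lit} {q : Lit} (h : ¬ (Tr τ q ↔ neg q ∈ D)) :
    Tr τ (neg (agr D q)) := by
  unfold agr
  by_cases hn : neg q ∈ D
  · rw [(mm_iff _ _).2 hn]
    simp only [cond_true]
    rw [Tr_neg]
    exact fun ht => h ⟨fun _ => hn, fun _ => ht⟩
  · have : mm (neg q) D = false := by
      by_contra hh
      exact hn ((mm_iff _ _).1 (by simpa using hh))
    rw [this]
    simp only [cond_false]
    rw [neg_neg]
    by_contra ht
    exact h ⟨fun h1 => absurd h1 ht, fun h1 => absurd h1 hn⟩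

/-- The pattern made from `D` is the one of `τ`. -/
theorem pat_tr {τ : Var → Bool} {D c : List Lit} {p : Lit} (h1 : Agree τ D c)
    (h2 : ¬ (Tr τ p ↔ neg p ∈ D)) : ∀ x ∈ pat D (p :: c), Tr τ x := by
  intro x hx
  change x ∈ neg (agr D p) :: c.map (agr D) at hx
  rcases List.mem_cons.1 hx with rfl | hx
  · exact agr_tr' h2
  · obtain ⟨q, hq, rfl⟩ := List.mem_map.1 hx
    exact agr_tr (h1 q hq)

theorem exL_tr {τ : Var → Bool} {U : List (List Lit)} {A : List Lit} (hA : ∀ x ∈ A, Tr τ x)
    (hU : ∀ C ∈ U, ∀ x ∈ C, Tr τ x → Priv τ x C.toFinset) : ∀ x ∈ exL U A, Tr τ x := by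
  intro z hz
  unfold exL at hz
  rw [List.mem_flatMap] at hz
  obtain ⟨C, hC, hz⟩ := hz
  rw [List.mem_flatMap] at hz
  obtain ⟨x, hx, hz⟩ := hz
  by_cases hm : mm x A = true
  · rw [hm] at hz
    simp only [cond_true] at hz
    obtain ⟨y, hy, rfl⟩ := List.mem_map.1 hz
    rw [List.mem_filter] at hy
    have hne : y ≠ x := by simpa using hy.2
    have hp := hU C hC x hx (hA x ((mm_iff _ _).1 hm))
    rw [Tr_neg]
    exact fun ht => hne ((hp.2 y (List.mem_toFinset.2 hy.1)).1 ht)
  · have : mm x A = false := by simpa using hm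
    rw [this] at hz
    simp at hz

theorem pat_mem_tr {τ : Var → Bool} {D : List Lit} {t : List Lit} (hA : ∀ x ∈ pat D t, Tr τ x)
    {q : Lit} (hq : q ∈ t) : mm q (pat D t) = true ↔ Tr τ q := by
  rw [mm_iff]
  constructor
  · exact hA q
  · intro ht
    have agr_or : ∀ z : Lit, agr D z = z ∨ agr D z = neg z := by
      intro z
      unfold agr
      cases mm (neg z) D <;> simp
    have hor : q ∈ pat D t ∨ neg q ∈ pat D t := by
      cases t with
      | nil => simp at hq
      | cons p c =>
        change q ∈ neg (agr D p) :: c.map (agr D) ∨ neg q ∈ neg (agr D p) :: c.map (agr D)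
        rcases List.mem_cons.1 hq with rfl | hq
        · rcases agr_or q with h | h
          · rw [h]; right; exact List.mem_cons_self
          · rw [h, neg_neg]; left; exact List.mem_cons_self
        · rcases agr_or q with h | h
          · left
            exact List.mem_cons_of_mem _ (List.mem_map.2 ⟨q, hq, h⟩)
          · right
            exact List.mem_cons_of_mem _ (List.mem_map.2 ⟨q, hq, h⟩)
    rcases hor with h | h
    · exact h
    · exact absurd ht ((Tr_neg τ q).1 (hA _ h))

/-- In the third alternative of the step lemma some guess of the third kind is correct. -/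
theorem candN_complete {G : List (List Lit)} (hG : ∀ C ∈ G, C.Nodup) {τ : Var → Bool}
    {C0 : List Lit} (h0 : C0 ∈ G) (hrow : ∃ D ∈ G, cl C0 D ≠ 0)
    (h1 : ∀ C ∈ clsL G C0, ∀ x ∈ C, Tr τ x → Priv τ x C.toFinset)
    (h2 : ∀ D ∈ G, ¬ Agree τ D (clsL G C0).flatten) :
    ∃ L, (L, zerL G C0) ∈ candN G ∧ ∀ x ∈ L, Tr τ x := by
  have hN : nonL G C0 ≠ [] := by
    obtain ⟨D, hD, hCD⟩ := hrow
    apply List.ne_nil_of_mem (a := D)
    unfold nonL
    rw [List.mem_filter]
    exact ⟨hD, by simpa using hCD⟩
  have hsub : ∀ E ∈ nonL G C0, E ∈ G := fun E hE => (List.mem_filter.1 hE).1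
  obtain ⟨p, c, ht, ⟨D, hD, hA, hp⟩, hno⟩ := exists_suffix hN (clsL G C0).flatten
    (fun E hE => h2 E (hsub E hE))
  have hpat := pat_tr hA hp
  refine ⟨pat D (p :: c) ++ exL (clsL G C0) (pat D (p :: c)), ?_, ?_⟩
  · unfold candN
    rw [List.mem_flatMap]
    refine ⟨C0, h0, ?_⟩
    rw [List.mem_flatMap]
    refine ⟨D, hsub D hD, ?_⟩
    rw [List.mem_flatMap]
    refine ⟨p :: c, ht, ?_⟩
    have hok : okL (nonL G C0) (p :: c) (pat D (p :: c)) = true := by
      unfold okL
      rw [List.all_eq_true]
      intro E hE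
      rw [List.any_eq_true]
      have h3 := hno E hE
      unfold Agree at h3
      push Not at h3
      obtain ⟨q, hq, hqe⟩ := h3
      refine ⟨q, hq, ?_⟩
      have h4 := pat_mem_tr hpat hq
      have h5 := mm_iff (neg q) E
      by_cases hqt : Tr τ q
      · have h6 : neg q ∉ E := by tauto
        have h7 : mm (neg q) E = false := by
          by_contra hh
          exact h6 (h5.1 (by simpa using hh))
        rw [h4.2 hqt, h7]
        rfl
      · have h6 : neg q ∈ E := by tauto
        have h7 : mm q (pat D (p :: c)) = false := by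
          by_contra hh
          exact hqt (h4.1 (by simpa using hh))
        rw [h7, h5.2 h6]
        rfl
    rw [hok]
    exact List.mem_cons_self
  · intro x hx
    rcases List.mem_append.1 hx with hx | hx
    · exact hpat x hx
    · exact exL_tr hpat h1 x hx

end PHR
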