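import Pool.Agent.PHR.Step
import Pool.Agent.PHR.New

/-!
# Completeness of the algorithm
-/

namespace PHR

open Finset

theorem Mod.mono {τ : Var → Bool} {S S' : Finset (Finset Lit)} (h : Mod τ S) (hs : S' ⊆ S) :
    Mod τ S' := fun C hC => h C (hs hC)

theorem consL_of_tr {τ : Var → Bool} {L : List Lit} (h : ∀ x ∈ L, Tr τ x) : consL L = true := by
  rw [consL_iff]
  intro x hx hn
  exact (Tr_neg τ x).1 (h _ hn) (h _ hx)

theorem mem_toSet_of_mem {G : List (List Lit)} {C : List Lit} (h : C ∈ G) :
    C.toFinset ∈ toSet G := (mem_toSet G _).2 ⟨C, h, rfl⟩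

/-- The common part of the three cases. -/
theorem sat_restrL {τ : Var → Bool} {L : List Lit} {G : List (List Lit)}
    (h : Mod τ (toSet G)) (hL : ∀ x ∈ L, Tr τ x) : Sat (toSet (restrL L G)) := by
  rw [toSet_restrL]
  refine ⟨τ, h.restr ?_⟩
  intro x hx
  exact hL x (List.mem_toFinset.1 hx)

/-- If some guess is correct and lowers the budget, the algorithm succeeds. -/
theorem cands_complete {G : List (List Lit)} (hG : ∀ C ∈ G, C.Nodup)
    (hcl : ∀ C ∈ toSet G, IsClause C) (hne : G ≠ []) (hrow : ∀ C ∈ G, ∃ D ∈ G, cl C D ≠ 0)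
    (hsat : Sat (toSet G)) : ∃ p ∈ cands G, consL p.1 = true ∧ (∀ C ∈ p.2, C.Nodup) ∧
      (∀ C ∈ p.2, C ∈ G) ∧
      Sat (toSet (restrL p.1 p.2)) ∧ bS (toSet (restrL p.1 p.2)) < bS (toSet G) := by
  have hne' : (toSet G).Nonempty := by
    obtain ⟨C, hC⟩ := List.exists_mem_of_ne_nil G hne
    exact ⟨_, mem_toSet_of_mem hC⟩
  have hrow' : ∀ C ∈ toSet G, ∃ D ∈ toSet G, clash C D ≠ 0 := by
    intro C hC
    obtain ⟨c, hc, rfl⟩ := (mem_toSet G C).1 hC
    obtain ⟨d, hd, hcd⟩ := hrow c hc
    refine ⟨d.toFinset, mem_toSet_of_mem hd, ?_⟩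
    rw [← cl_eq (hG c hc)]
    exact hcd
  rcases step hcl hne' hrow' hsat with
    ⟨τ, hτ, C, hC, C', hC', x, y, hx, hy, hb⟩ | ⟨τ, hτ, C0, hC0, D, hD, hV, hb⟩ |
    ⟨τ, hτ, C0, hC0, h1, h2, hb⟩
  · obtain ⟨c, hc, rfl⟩ := (mem_toSet G C).1 hC
    obtain ⟨c', hc', rfl⟩ := (mem_toSet G C').1 hC'
    have hL : ∀ z ∈ privL x c ++ privL y c', Tr τ z := by
      intro z hz
      rcases List.mem_append.1 hz with hz | hz
      · apply hx.tr
        rw [← privL_toFinset]
        exact List.mem_toFinset.2 hz
      · apply hy.tr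
        rw [← privL_toFinset]
        exact List.mem_toFinset.2 hz
    refine ⟨(privL x c ++ privL y c', G), ?_, consL_of_tr hL, hG, fun _ h => h,
      sat_restrL hτ hL, ?_⟩
    · simp only [cands, List.mem_append]
      left
      simp only [candG, List.mem_flatMap, List.mem_map]
      exact ⟨c, hc, x, List.mem_toFinset.1 hx.1, c', hc', y, List.mem_toFinset.1 hy.1, rfl⟩
    · simp only
      rw [toSet_restrL, List.toFinset_append, privL_toFinset, privL_toFinset]
      exact hb
  · obtain ⟨c0, hc0, rfl⟩ := (mem_toSet G C0).1 hC0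
    obtain ⟨d, hd, rfl⟩ := (mem_toSet G D).1 hD
    have hfl := mem_flatten_clsL hG hc0
    have hL : ∀ z ∈ (clsL G c0).flatten.map (agr d), Tr τ z := by
      intro z hz
      obtain ⟨p, hp, rfl⟩ := List.mem_map.1 hz
      have h3 := hV p ((hfl p).1 hp)
      unfold agr
      by_cases hn : neg p ∈ d
      · rw [(mm_iff _ _).2 hn]
        exact h3.2 (List.mem_toFinset.2 hn)
      · have : mm (neg p) d = false := by
          by_contra hh
          exact hn ((mm_iff _ _).1 (by simpa using hh))
        rw [this]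
        simp only [cond_false]
        rw [Tr_neg]
        intro ht
        exact hn (List.mem_toFinset.1 (h3.1 ht))
    refine ⟨((clsL G c0).flatten.map (agr d), G), ?_, consL_of_tr hL, hG, fun _ h => h,
      sat_restrL hτ hL, ?_⟩
    · simp only [cands, List.mem_append]
      right; left
      simp only [candO, List.mem_flatMap, List.mem_map]
      exact ⟨c0, hc0, d, hd, rfl⟩
    · simp only
      rw [toSet_restrL, old_toFinset _ _ hfl]
      exact hb
  · obtain ⟨c0, hc0, rfl⟩ := (mem_toSet G C0).1 hC0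
    obtain ⟨L, hL1, hL⟩ := candN_complete hG (τ := τ) hc0 (hrow c0 hc0)
      (fun C hC x hx ht => h1 _ ((mem_clsL hG hc0 C).1 hC).2 x (List.mem_toFinset.2 hx) ht)
      (fun D hD hA => h2 _ (mem_toSet_of_mem hD) fun p hp => by
        rw [hA p ((mem_flatten_clsL hG hc0 p).2 hp), List.mem_toFinset])
    have hz : toSet (zerL G c0) = zer (toSet G) c0.toFinset := toSet_zerL (hG c0 hc0)
    refine ⟨(L, zerL G c0), ?_, consL_of_tr hL, nodup_zerL hG c0, ?_, sat_restrL ?_ hL, ?_⟩
    · simp only [cands, List.mem_append]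
      right; right
      exact hL1
    · intro C hC
      exact (List.mem_filter.1 hC).1
    · rw [hz]
      exact hτ.mono (Finset.filter_subset _ _)
    · simp only
      rw [toSet_restrL, hz]
      exact hb _

theorem solve_complete (d : ℕ) (F : List (List Lit)) (hF : ∀ C ∈ F, C.Nodup)
    (hcl : ∀ C ∈ toSet F, IsClause C) (hsat : Sat (toSet F)) (hd : bS (toSet F) < d) :
    solve d F = true := by
  induction d generalizing F with
  | zero => omega
  | succ d ih =>
    have hempty : (F.any fun C => C.isEmpty) = false := by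
      rw [← Bool.not_eq_true]
      intro hh
      obtain ⟨C, hC, hC2⟩ := List.any_eq_true.1 hh
      obtain ⟨τ, hτ⟩ := hsat
      have : C = [] := List.isEmpty_iff.1 hC2
      subst this
      obtain ⟨x, hx, -⟩ := hτ _ (mem_toSet_of_mem hC)
      simp at hx
    unfold solve
    rw [hempty]
    simp only [Bool.not_false, Bool.true_and, Bool.or_eq_true]
    by_cases hr : redL F = []
    · left
      rw [hr]; rfl
    · right
      have hsub : toSet (redL F) ⊆ toSet F := by
        rw [toSet_redL hF]
        exact Finset.filter_subset _ _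
      have hrow : ∀ C ∈ redL F, ∃ D ∈ redL F, cl C D ≠ 0 := by
        intro C hC
        obtain ⟨hC1, hC2⟩ := List.mem_filter.1 hC
        obtain ⟨D, hD, hCD⟩ := List.any_eq_true.1 hC2
        have hCD' : cl C D ≠ 0 := by simpa using hCD
        refine ⟨D, List.mem_filter.2 ⟨hD, List.any_eq_true.2 ⟨C, hC1, ?_⟩⟩, hCD'⟩
        have : cl D C ≠ 0 := by
          rw [cl_eq (hF D hD), clash_comm, ← cl_eq (hF C hC1)]
          exact hCD'
        simpa using this
      have hsat' : Sat (toSet (redL F)) := by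
        obtain ⟨τ, hτ⟩ := hsat
        exact ⟨τ, hτ.mono hsub⟩
      obtain ⟨p, hp, h1, h2, h3, h4, h5⟩ := cands_complete (nodup_redL hF)
        (fun C hC => hcl C (hsub hC)) hr hrow hsat'
      rw [List.any_eq_true]
      refine ⟨p, hp, ?_⟩
      rw [h1, Bool.true_and]
      apply ih
      · exact nodup_restrL h2 p.1
      · rw [toSet_restrL]
        apply restr_isClause
        intro C hC
        obtain ⟨c, hc, rfl⟩ := (mem_toSet p.2 C).1 hC
        exact hcl _ (hsub (mem_toSet_of_mem (h3 c hc)))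
      · exact h4
      · have := bS_mono hsub
        omega

end PHR
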