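import Pool.Agent.SemiTrans.PT.Bridge

/-!
# Clause-sets, conflict matrix, hermitian rank, and a polynomial-time SAT algorithm (definitions)

Variables are bit strings, so that clause-sets have an honest encoding by bit strings.
-/

namespace PHR

open Finset

/-- Variables: finite bit strings. -/
abbrev Var := List Bool

/-- A literal: a variable together with a sign. -/
abbrev Lit := Var × Bool

/-- The complement of a literal. -/
def neg (x : Lit) : Lit := (x.1, !x.2)

/-- A clause: a finite set of literals without complementary pair. -/
def IsClause (C : Finset Lit) : Prop := ∀ x ∈ C, neg x ∉ C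

/-- The literal `x` is true under `τ`. -/
def Tr (τ : Var → Bool) (x : Lit) : Prop := τ x.1 = x.2

/-- `τ` satisfies all clauses. -/
def Mod (τ : Var → Bool) (F : Finset (Finset Lit)) : Prop := ∀ C ∈ F, ∃ x ∈ C, Tr τ x

/-- Satisfiability of a finite set of clauses. -/
def Sat (F : Finset (Finset Lit)) : Prop := ∃ τ : Var → Bool, Mod τ F

/-- The number of clashing literals of two clauses. -/
def clash (C D : Finset Lit) : ℕ := (C.filter (fun x => neg x ∈ D)).card

/-- The conflict matrix. -/
def CM (F : Finset (Finset Lit)) : Matrix F F ℝ :=
  Matrix.of fun C D => (clash C.1 D.1 : ℝ)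

/-- The hermitian rank of a real (symmetric) matrix. -/
noncomputable def hermRank {m : Type} [Fintype m] (A : Matrix m m ℝ) : ℕ :=
  sInf {r : ℕ | ∃ B : Matrix m m ℝ, A = B + B.transpose ∧ B.rank = r}

/-- The clause-set given by a list of lists of literals. -/
def toSet (F : List (List Lit)) : Finset (Finset Lit) := (F.map List.toFinset).toFinset

/-! ### Finset level operations (used in the correctness proof) -/

/-- Set all literals of `L` to true: delete the clauses meeting `L`, remove the complements of
elements of `L` from the others. -/
def restr (L : Finset Lit) (S : Finset (Finset Lit)) : Finset (Finset Lit) :=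
  (S.filter (fun C => ∀ x ∈ C, x ∉ L)).image (fun C => C.filter (fun x => neg x ∉ L))

/-- The clauses clashing with some clause. -/
def red (S : Finset (Finset Lit)) : Finset (Finset Lit) :=
  S.filter (fun C => ∃ D ∈ S, clash C D ≠ 0)

/-- The class of `C0`: clauses with the same row. -/
def cls (S : Finset (Finset Lit)) (C0 : Finset Lit) : Finset (Finset Lit) :=
  S.filter (fun C => ∀ E ∈ S, clash C E = clash C0 E)

/-- The literals occurring in the class of `C0`. -/
def vs (S : Finset (Finset Lit)) (C0 : Finset Lit) : Finset Lit := (cls S C0).biUnion id

/-- The clauses not clashing with `C0`. -/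
def zer (S : Finset (Finset Lit)) (C0 : Finset Lit) : Finset (Finset Lit) :=
  S.filter (fun E => clash C0 E = 0)

/-- The literals made true when `C` is satisfied only by `x`. -/
def priv (x : Lit) (C : Finset Lit) : Finset Lit := insert x ((C.erase x).image neg)

/-- `C` is satisfied by `τ` exactly in the literal `x`. -/
def Priv (τ : Var → Bool) (x : Lit) (C : Finset Lit) : Prop := x ∈ C ∧ ∀ y ∈ C, (Tr τ y ↔ y = x)

/-- The assignment of the literals of `V` prescribed by the complements of the literals of `D`. -/
def old (V D : Finset Lit) : Finset Lit :=
  V.image (fun p => if neg p ∈ D then p else neg p)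

/-! ### The algorithm, on lists -/

/-- Membership test. -/
def mm (x : Lit) (C : List Lit) : Bool := C.any (fun y => decide (y = x))

/-- Remove repetitions. -/
def ddp (C : List Lit) : List Lit := C.foldl (fun A x => bif mm x A then A else x :: A) []

/-- The number of clashing literals. -/
def cl (C D : List Lit) : ℕ := (C.filter (fun x => mm (neg x) D)).length

/-- Set all literals of `L` to true. -/
def restrL (L : List Lit) (G : List (List Lit)) : List (List Lit) :=
  (G.filter (fun C => C.all (fun x => !(mm x L)))).map (fun C => C.filter (fun x => !(mm (neg x) L)))

/-- `L` contains no complementary pair. -/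
def consL (L : List Lit) : Bool := L.all (fun x => !(mm (neg x) L))

/-- Delete the clauses without clash. -/
def redL (G : List (List Lit)) : List (List Lit) :=
  G.filter (fun C => G.any (fun D => !(decide (cl C D = 0))))

/-- The clauses with the same clash numbers as `C0`. -/
def clsL (G : List (List Lit)) (C0 : List Lit) : List (List Lit) :=
  G.filter (fun C => G.all (fun E => decide (cl C E = cl C0 E)))

/-- The clauses not clashing with `C0`. -/
def zerL (G : List (List Lit)) (C0 : List Lit) : List (List Lit) :=
  G.filter (fun E => decide (cl C0 E = 0))

/-- The clauses clashing with `C0`. -/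
def nonL (G : List (List Lit)) (C0 : List Lit) : List (List Lit) :=
  G.filter (fun E => !(decide (cl C0 E = 0)))

/-- `x` true and all other literals of `C` false. -/
def privL (x : Lit) (C : List Lit) : List Lit :=
  x :: (C.filter (fun y => !(decide (y = x)))).map neg

/-- `p` is true if its complement is in `D`, otherwise `p` is false. -/
def agr (D : List Lit) (p : Lit) : Lit := bif mm (neg p) D then p else neg p

/-- Agreement with `D` on the tail of `t`, disagreement at the head. -/
def pat (D : List Lit) (t : List Lit) : List Lit :=
  List.casesOn (motive := fun _ => List Lit) t [] fun p c => neg (agr D p) :: c.map (agr D)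

/-- For every `x` in `A`: all other literals of the clauses of `U` containing `x` are false. -/
def exL (U : List (List Lit)) (A : List Lit) : List Lit :=
  U.flatMap fun C => C.flatMap fun x =>
    bif mm x A then (C.filter (fun y => !(decide (y = x)))).map neg else []

/-- No clause of `N` agrees with `A` on `t`. -/
def okL (N : List (List Lit)) (t A : List Lit) : Bool :=
  N.all fun E => t.any fun q => Bool.xor (mm (neg q) E) (mm q A)

/-- First kind of guess: two clauses which are satisfied by exactly one literal. -/
def candG (G : List (List Lit)) : List (List Lit × List (List Lit)) :=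
  G.flatMap fun C => C.flatMap fun x => G.flatMap fun C' => C'.map fun y =>
    (privL x C ++ privL y C', G)

/-- Second kind of guess: the values of all literals of a class are prescribed by a clause `D`. -/
def candO (G : List (List Lit)) : List (List Lit × List (List Lit)) :=
  G.flatMap fun C0 => G.map fun D => ((clsL G C0).flatten.map (agr D), G)

/-- Third kind of guess. -/
def candN (G : List (List Lit)) : List (List Lit × List (List Lit)) :=
  G.flatMap fun C0 => G.flatMap fun D => (clsL G C0).flatten.tails.flatMap fun t =>
    bif okL (nonL G C0) t (pat D t) then
      [(pat D t ++ exL (clsL G C0) (pat D t), zerL G C0)] else []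

/-- All guesses. -/
def cands (G : List (List Lit)) : List (List Lit × List (List Lit)) :=
  candG G ++ (candO G ++ candN G)

/-- The recursion: `d` is the depth. `true` means satisfiable. -/
def solve : ℕ → List (List Lit) → Bool
  | 0, _ => false
  | d + 1, F => !(F.any fun C => C.isEmpty) && ((redL F).isEmpty ||
      (cands (redL F)).any fun p => consL p.1 && solve d (restrL p.1 p.2))

end PHR
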