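import Pool.Agent.PHR.Defs

/-!
# The algorithm runs in polynomial time
-/

namespace PHR

open Pool.Agent.SemiTrans.PT

section

variable {α : Type*} [Enc α]

@[fun_prop]
theorem neg_polyTime {f : α → Lit} (hf : PolyTime f) : PolyTime (fun a => neg (f a)) := by
  unfold neg
  fun_prop

@[fun_prop]
theorem mm_polyTime {f : α → Lit} {g : α → List Lit} (hf : PolyTime f) (hg : PolyTime g) :
    PolyTime (fun a => mm (f a) (g a)) := by
  unfold mm
  exact PolyTime.any (g := fun a y => decide (y = f a)) hg (by fun_prop)

theorem ddp_polyTime : PolyTime ddp := by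
  unfold ddp
  refine PolyTime.foldl_add (l := fun C : List Lit => C)
    (g := fun _ A x => bif mm x A then A else x :: A) (y := fun _ => []) (by fun_prop)
    (PolyTime.cond (by fun_prop) (by fun_prop) (by fun_prop)) (by fun_prop)
    (s := fun C => sz C + 1) (by fun_prop) ?_
  intro C x hx A
  have h := sz_le_of_mem hx
  cases hm : mm x A
  · simp only [cond_false, sz_cons]; omega
  · simp only [cond_true]; omega

@[fun_prop]
theorem cl_polyTime {f g : α → List Lit} (hf : PolyTime f) (hg : PolyTime g) :
    PolyTime (fun a => cl (f a) (g a)) := by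
  unfold cl
  exact (PolyTime.filter (g := fun a x => mm (neg x) (g a)) hf (by fun_prop)).length

@[fun_prop]
theorem restrL_polyTime {f : α → List Lit} {g : α → List (List Lit)} (hf : PolyTime f)
    (hg : PolyTime g) : PolyTime (fun a => restrL (f a) (g a)) := by
  unfold restrL
  refine PolyTime.map (g := fun a (C : List Lit) => C.filter (fun x => !(mm (neg x) (f a))))
    (PolyTime.filter (g := fun a (C : List Lit) => C.all (fun x => !(mm x (f a)))) hg ?_) ?_
  · exact PolyTime.all (l := fun p : α × List Lit => p.2) (g := fun p x => !(mm x (f p.1)))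
      (by fun_prop) (by fun_prop)
  · exact PolyTime.filter (l := fun p : α × List Lit => p.2)
      (g := fun p x => !(mm (neg x) (f p.1))) (by fun_prop) (by fun_prop)

@[fun_prop]
theorem consL_polyTime {f : α → List Lit} (hf : PolyTime f) :
    PolyTime (fun a => consL (f a)) := by
  unfold consL
  exact PolyTime.all (g := fun a x => !(mm (neg x) (f a))) hf (by fun_prop)

@[fun_prop]
theorem redL_polyTime {f : α → List (List Lit)} (hf : PolyTime f) :
    PolyTime (fun a => redL (f a)) := by
  unfold redL
  refine PolyTime.filter (g := fun a C => (f a).any (fun D => !(decide (cl C D = 0)))) hf ?_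
  exact PolyTime.any (l := fun p : α × List Lit => f p.1)
    (g := fun p D => !(decide (cl p.2 D = 0))) (by fun_prop) (by fun_prop)

@[fun_prop]
theorem clsL_polyTime {f : α → List (List Lit)} {g : α → List Lit} (hf : PolyTime f)
    (hg : PolyTime g) : PolyTime (fun a => clsL (f a) (g a)) := by
  unfold clsL
  refine PolyTime.filter (g := fun a C => (f a).all (fun E => decide (cl C E = cl (g a) E))) hf ?_
  exact PolyTime.all (l := fun p : α × List Lit => f p.1)
    (g := fun p E => decide (cl p.2 E = cl (g p.1) E)) (by fun_prop) (by fun_prop)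

@[fun_prop]
theorem zerL_polyTime {f : α → List (List Lit)} {g : α → List Lit} (hf : PolyTime f)
    (hg : PolyTime g) : PolyTime (fun a => zerL (f a) (g a)) := by
  unfold zerL
  exact PolyTime.filter (g := fun a E => decide (cl (g a) E = 0)) hf (by fun_prop)

@[fun_prop]
theorem nonL_polyTime {f : α → List (List Lit)} {g : α → List Lit} (hf : PolyTime f)
    (hg : PolyTime g) : PolyTime (fun a => nonL (f a) (g a)) := by
  unfold nonL
  exact PolyTime.filter (g := fun a E => !(decide (cl (g a) E = 0))) hf (by fun_prop)

theorem others_polyTime {f : α → Lit} {g : α → List Lit} (hf : PolyTime f) (hg : PolyTime g) :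
    PolyTime (fun a => ((g a).filter (fun y => !(decide (y = f a)))).map neg) := by
  refine PolyTime.map (g := fun _ y => neg y)
    (PolyTime.filter (g := fun a y => !(decide (y = f a))) hg (by fun_prop)) (by fun_prop)

@[fun_prop]
theorem privL_polyTime {f : α → Lit} {g : α → List Lit} (hf : PolyTime f) (hg : PolyTime g) :
    PolyTime (fun a => privL (f a) (g a)) := by
  unfold privL
  exact hf.cons (others_polyTime hf hg)

@[fun_prop]
theorem agr_polyTime {f : α → List Lit} {g : α → Lit} (hf : PolyTime f) (hg : PolyTime g) :
    PolyTime (fun a => agr (f a) (g a)) := by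
  unfold agr
  exact PolyTime.cond (by fun_prop) (by fun_prop) (by fun_prop)

@[fun_prop]
theorem pat_polyTime {f g : α → List Lit} (hf : PolyTime f) (hg : PolyTime g) :
    PolyTime (fun a => pat (f a) (g a)) := by
  unfold pat
  refine PolyTime.listCases (l := g) (f := fun _ => []) (g := fun a (p : Lit) (c : List Lit) =>
    neg (agr (f a) p) :: c.map (agr (f a))) hg (by fun_prop) ?_
  refine PolyTime.cons (by fun_prop) ?_
  exact PolyTime.map (l := fun p : α × (Lit × List Lit) => p.2.2)
    (g := fun p x => agr (f p.1) x) (by fun_prop) (by fun_prop)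

@[fun_prop]
theorem exL_polyTime {f : α → List (List Lit)} {g : α → List Lit} (hf : PolyTime f)
    (hg : PolyTime g) : PolyTime (fun a => exL (f a) (g a)) := by
  unfold exL
  refine PolyTime.flatMap (g := fun a (C : List Lit) => C.flatMap fun x =>
    bif mm x (g a) then (C.filter (fun y => !(decide (y = x)))).map neg else []) hf ?_
  refine PolyTime.flatMap (l := fun p : α × List Lit => p.2) (g := fun p x =>
    bif mm x (g p.1) then (p.2.filter (fun y => !(decide (y = x)))).map neg else [])
    (by fun_prop) ?_
  refine PolyTime.cond (by fun_prop) ?_ (by fun_prop)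
  exact others_polyTime (f := fun p : (α × List Lit) × Lit => p.2) (g := fun p => p.1.2)
    (by fun_prop) (by fun_prop)

@[fun_prop]
theorem okL_polyTime {f : α → List (List Lit)} {g h : α → List Lit} (hf : PolyTime f)
    (hg : PolyTime g) (hh : PolyTime h) : PolyTime (fun a => okL (f a) (g a) (h a)) := by
  unfold okL
  refine PolyTime.all (g := fun a E => (g a).any fun q =>
    Bool.xor (mm (neg q) E) (mm q (h a))) hf ?_
  exact PolyTime.any (l := fun p : α × List Lit => g p.1)
    (g := fun p q => Bool.xor (mm (neg q) p.2) (mm q (h p.1))) (by fun_prop) (by fun_prop)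

/-- All suffixes, computed by a fold over the reversed list. -/
theorem tails_eq {β : Type*} (l : List β) :
    l.tails = (l.reverse.foldl (fun (s : List β × List (List β)) x => (x :: s.1, (x :: s.1) :: s.2))
      ([], [[]])).2 := by
  have key : ∀ (m : List β) (s : List β × List (List β)), s.2 = s.1.tails →
      (m.foldl (fun (s : List β × List (List β)) x => (x :: s.1, (x :: s.1) :: s.2)) s).2 =
        (m.reverse ++ s.1).tails := by
    intro m
    induction m with
    | nil => intro s hs; simpa using hs
    | cons x m ih =>
      intro s hs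
      rw [List.foldl_cons, ih _ (by simp [hs])]
      simp
  rw [key _ _ (by simp)]
  simp

@[fun_prop]
theorem tails_polyTime {β : Type*} [Enc β] {f : α → List β} (hf : PolyTime f) :
    PolyTime (fun a => (f a).tails) := by
  have hb := hf.pbdd
  have h := PolyTime.foldl (γ := List β × List (List β)) (l := fun a => (f a).reverse)
    (g := fun _ s x => (x :: s.1, (x :: s.1) :: s.2)) (y := fun _ => ([], [[]]))
    (by fun_prop) (by fun_prop) (by fun_prop)
    (s := fun a => sz (f a) + (sz (f a) + 1) * (sz (f a) + 1) + 5) (by fun_prop) ?_
  · exact (PolyTime.snd h).congr fun a => tails_eq _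
  · intro a i
    have key : ∀ (m : List β) (s : List β × List (List β)),
        sz ((m.foldl (fun (s : List β × List (List β)) x => (x :: s.1, (x :: s.1) :: s.2)) s).1) + 1 =
          sz m + sz s.1 ∧
        sz ((m.foldl (fun (s : List β × List (List β)) x => (x :: s.1, (x :: s.1) :: s.2)) s).2) ≤
          sz s.2 + m.length * (sz m + sz s.1 + 1) := by
      intro m
      induction m with
      | nil => intro s; simp; omega
      | cons x m ih =>
        intro s
        obtain ⟨h1, h2⟩ := ih (x :: s.1, (x :: s.1) :: s.2)
        rw [List.foldl_cons]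
        simp only [sz_cons, List.length_cons] at h1 h2 ⊢
        refine ⟨by omega, h2.trans ?_⟩
        nlinarith
    obtain ⟨h1, h2⟩ := key ((f a).reverse.take i) ([], [[]])
    have h3 : sz ((f a).reverse.take i) ≤ sz (f a) := by
      rw [← sz_reverse (f a)]
      exact sz_le_of_sublist (List.take_sublist _ _)
    have h4 : ((f a).reverse.take i).length ≤ sz (f a) :=
      (length_le_sz _).trans h3
    rw [sz_prod]
    simp only [sz_nil, sz_cons] at h1 h2
    have h5 : ((f a).reverse.take i).length * (sz ((f a).reverse.take i) + 1 + 1) ≤
        sz (f a) * (sz (f a) + 2) := Nat.mul_le_mul h4 (by omega)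
    nlinarith

end

theorem candG_polyTime : PolyTime candG := by
  unfold candG
  refine PolyTime.flatMap (l := fun G : List (List Lit) => G) (g := fun G C => C.flatMap fun x =>
    G.flatMap fun C' => C'.map fun y => (privL x C ++ privL y C', G)) (by fun_prop) ?_
  refine PolyTime.flatMap (l := fun p : List (List Lit) × List Lit => p.2) (g := fun p x =>
    p.1.flatMap fun C' => C'.map fun y => (privL x p.2 ++ privL y C', p.1)) (by fun_prop) ?_
  refine PolyTime.flatMap (l := fun p : (List (List Lit) × List Lit) × Lit => p.1.1)
    (g := fun p C' => C'.map fun y => (privL p.2 p.1.2 ++ privL y C', p.1.1)) (by fun_prop) ?_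
  refine PolyTime.map (l := fun p : ((List (List Lit) × List Lit) × Lit) × List Lit => p.2)
    (g := fun p y => (privL p.1.2 p.1.1.2 ++ privL y p.2, p.1.1.1)) (by fun_prop) ?_
  fun_prop

theorem candO_polyTime : PolyTime candO := by
  unfold candO
  refine PolyTime.flatMap (l := fun G : List (List Lit) => G) (g := fun G C0 => G.map fun D =>
    ((clsL G C0).flatten.map (agr D), G)) (by fun_prop) ?_
  refine PolyTime.map (l := fun p : List (List Lit) × List Lit => p.1)
    (g := fun p D => ((clsL p.1 p.2).flatten.map (agr D), p.1)) (by fun_prop) ?_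
  refine PolyTime.pair ?_ (by fun_prop)
  exact PolyTime.map (l := fun p : (List (List Lit) × List Lit) × List Lit =>
    (clsL p.1.1 p.1.2).flatten) (g := fun p x => agr p.2 x) (by fun_prop) (by fun_prop)

theorem candN_polyTime : PolyTime candN := by
  unfold candN
  refine PolyTime.flatMap (l := fun G : List (List Lit) => G) (g := fun G C0 => G.flatMap fun D =>
    (clsL G C0).flatten.tails.flatMap fun t =>
    bif okL (nonL G C0) t (pat D t) then
      [(pat D t ++ exL (clsL G C0) (pat D t), zerL G C0)] else []) (by fun_prop) ?_
  refine PolyTime.flatMap (l := fun p : List (List Lit) × List Lit => p.1) (g := fun p D =>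
    (clsL p.1 p.2).flatten.tails.flatMap fun t =>
    bif okL (nonL p.1 p.2) t (pat D t) then
      [(pat D t ++ exL (clsL p.1 p.2) (pat D t), zerL p.1 p.2)] else []) (by fun_prop) ?_
  refine PolyTime.flatMap (l := fun p : (List (List Lit) × List Lit) × List Lit =>
    (clsL p.1.1 p.1.2).flatten.tails) (g := fun p t =>
    bif okL (nonL p.1.1 p.1.2) t (pat p.2 t) then
      [(pat p.2 t ++ exL (clsL p.1.1 p.1.2) (pat p.2 t), zerL p.1.1 p.1.2)] else [])
    (by fun_prop) ?_
  refine PolyTime.cond (by fun_prop) ?_ (by fun_prop)
  refine PolyTime.cons ?_ (by fun_prop)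
  refine PolyTime.pair ?_ ?_
  · fun_prop
  · fun_prop

theorem cands_polyTime : PolyTime cands := by
  unfold cands
  exact candG_polyTime.append (candO_polyTime.append candN_polyTime)

theorem solve_polyTime (d : ℕ) : PolyTime (solve d) := by
  induction d with
  | zero =>
    exact (PolyTime.const false).congr fun F => by rw [solve]
  | succ d ih =>
    have h1 : PolyTime (fun F : List (List Lit) => F.any fun C => C.isEmpty) :=
      PolyTime.any (l := fun F : List (List Lit) => F) (g := fun _ (C : List Lit) => C.isEmpty)
        (by fun_prop) (by fun_prop)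
    have h2 : PolyTime (fun F : List (List Lit) => (cands (redL F)).any fun p =>
        consL p.1 && solve d (restrL p.1 p.2)) := by
      refine PolyTime.any (g := fun _ (p : List Lit × List (List Lit)) =>
        consL p.1 && solve d (restrL p.1 p.2)) (cands_polyTime.comp (by fun_prop)) ?_
      refine PolyTime.and (by fun_prop) (ih.comp (by fun_prop))
    have h3 : PolyTime (fun F : List (List Lit) => !(F.any fun C => C.isEmpty) &&
        ((redL F).isEmpty || (cands (redL F)).any fun p =>
          consL p.1 && solve d (restrL p.1 p.2))) :=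
      h1.not.and (PolyTime.or (by fun_prop) h2)
    exact h3.congr fun F => by rw [solve]

end PHR
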