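import Pool.Agent.PHR.Sound
import Pool.Agent.PHR.Comp
import Pool.Agent.PHR.Poly
import Pool.Agent.H13.HR.Herm

/-!
# Satisfiability of clause-sets of bounded hermitian rank is decidable in polynomial time
-/

namespace PHR

open Pool.Agent.SemiTrans.PT Turing

/-! ### Encoding by bit strings -/

/-- Self-delimiting code of a bit. -/
def encBit : Bool → List Bool
  | false => [false]
  | true => [true, false, false]

/-- Self-delimiting code of a list: every element is preceded by `true`, the end is `false`. -/
def encList {α : Type} (e : α → List Bool) : List α → List Bool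
  | [] => [false]
  | x :: l => true :: (e x ++ encList e l)

/-- Code of a literal: the code of the variable (a list of bits) followed by the sign. -/
def encLit (x : Lit) : List Bool := true :: (encList encBit x.1 ++ encBit x.2)

/-- Code of a list of clauses. -/
def encode (F : List (List Lit)) : List Bool := encList (encList encLit) F

theorem encBit_eq (b : Bool) : encBit b = code b := by cases b <;> rfl

theorem encList_eq {α : Type} [Enc α] (e : α → List Bool) (he : ∀ x, e x = code x) (l : List α) :
    encList e l = code l := by
  induction l with
  | nil => rfl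
  | cons x l ih =>
    rw [encList, ih, he]
    rfl

theorem encLit_eq (x : Lit) : encLit x = code x := by
  rw [encLit, encList_eq encBit encBit_eq, encBit_eq]
  rfl

theorem encode_eq (F : List (List Lit)) : encode F = code F :=
  encList_eq _ (fun C => encList_eq _ encLit_eq C) F

/-! ### Correctness -/

/-- Inputs: lists of lists of literals whose clause-set consists of clauses and has hermitian rank at
most `k`. -/
def Inst (k : ℕ) : Type :=
  {F : List (List Lit) // (∀ C ∈ toSet F, IsClause C) ∧ hermRank (CM (toSet F)) ≤ k}

/-- The depth of the recursion for hermitian rank `k`. -/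
def depth (k : ℕ) : ℕ := Bd (2 * k) + 1

open Classical in
theorem solve_correct (k : ℕ) (F : Inst k) :
    solve (depth k) (F.1.map ddp) = decide (Sat (toSet F.1)) := by
  have hherm : hermRank (CM (toSet F.1)) = H13.HR.hermRank (CM (toSet F.1)) := rfl
  have hsym : (CM (toSet F.1)).transpose = CM (toSet F.1) := by
    ext C D
    simp only [CM, Matrix.transpose_apply, Matrix.of_apply]
    rw [clash_comm]
  have hrk := H13.HR.rank_le_two_hermRank _ hsym
  have h2 : (CM (toSet F.1)).rank ≤ 2 * k := by
    have := F.2.2
    rw [hherm] at this
    omega
  by_cases hs : Sat (toSet F.1)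
  · rw [decide_eq_true hs]
    apply solve_complete
    · intro C hC
      obtain ⟨D, hD, rfl⟩ := List.mem_map.1 hC
      exact nodup_ddp D
    · rw [toSet_ddp]; exact F.2.1
    · rw [toSet_ddp]; exact hs
    · rw [toSet_ddp]
      have := bS_le h2
      unfold depth
      omega
  · rw [decide_eq_false hs]
    by_contra h
    have h3 := solve_sound (depth k) _ (by simpa using h)
    rw [toSet_ddp] at h3
    exact hs h3

/-! ### Turing machines -/

/-- Read the code of a bit on `A` and write the bit on `D`. -/
def outBit : Cmd := .case .A .skip (.push .D false)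
  (.case .A .skip (.case .A .skip (.push .D true) .skip) .skip)

theorem outBit_exec (b : Bool) : Exec outBit ⟨code b, [], [], []⟩ ⟨[], [], [], [b]⟩ 4 := by
  cases b
  · exact (Exec.caseFalse rfl (Exec.pushD _ _ _ _ _)).mono (by omega)
  · exact Exec.caseTrue rfl (Exec.caseFalse rfl (Exec.caseFalse rfl (Exec.pushD _ _ _ _ _)))

/-- Polynomial-time predicates are decided by Turing machines in polynomial time, the answer being
one bit. -/
theorem tm2_bool {α : Type} [Enc α] {f : α → Bool} (hf : PolyTime f) :
    Nonempty (TM2ComputableInPolyTime (code (α := α)) (fun b : Bool => [b]) f) := by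
  obtain ⟨p, P, hp⟩ := hf
  obtain ⟨Q, hQ⟩ : PBdd (fun x : α => (5 * sz x + 6) + ((5 * sz x + 6) + (P.eval (sz x) +
      4 + 1) + 1) + 1) := by
    have := (PBdd.size (α := α)).eval P
    fun_prop
  refine tm2_of_exec _ _ f (.seq rawDB (.seq rawBA (.seq p outBit))) Q fun x => ?_
  have h1 := rawDB_exec (code x) [] []
  have h2 := rawBA_exec (code x).reverse [] []
  have h3 := hp x [] [] [] []
  have h4 := outBit_exec (f x)
  simp only [List.append_nil, List.reverse_reverse, List.length_reverse] at h1 h2 h3 h4
  exact (h1.seq (h2.seq (h3.seq h4))).mono (hQ x)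

/-- The coding of inputs. -/
instance instEncInst (k : ℕ) : Enc (Inst k) := ⟨fun F => Enc.toD F.1, fun F G h => by
  apply Subtype.ext
  exact Enc.inj h⟩

open Classical in
theorem main (k : ℕ) : Nonempty (TM2ComputableInPolyTime
    (fun F : Inst k => encode F.1) (fun b : Bool => [b])
    (fun F : Inst k => decide (Sat (toSet F.1)))) := by
  have h1 : PolyTime (fun F : Inst k => F.1) := PolyTime.of_toD fun _ => rfl
  have h2 : PolyTime (fun F : Inst k => F.1.map ddp) :=
    PolyTime.map (g := fun _ C => ddp C) h1 (ddp_polyTime.comp PolyTime.snd')
  have h3 : PolyTime (fun F : Inst k => decide (Sat (toSet F.1))) :=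
    ((solve_polyTime (depth k)).comp h2).congr fun F => (solve_correct k F).symm
  have h4 : (fun F : Inst k => encode F.1) = code (α := Inst k) := by
    funext F
    exact encode_eq F.1
  rw [h4]
  exact tm2_bool h3

end PHR
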