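import Pool.Agent.PHR.Restr

/-!
# From lists to finsets
-/

namespace PHR

open Finset

theorem mm_iff (x : Lit) (C : List Lit) : mm x C = true ↔ x ∈ C := by
  simp [mm]

theorem mm_false (x : Lit) (C : List Lit) : (!(mm x C)) = true ↔ x ∉ C := by
  rw [← mm_iff]
  cases mm x C <;> simp

theorem consL_iff (L : List Lit) : consL L = true ↔ ∀ x ∈ L, neg x ∉ L := by
  unfold consL
  rw [List.all_eq_true]
  constructor
  · intro h x hx
    exact (mm_false _ _).1 (h x hx)
  · intro h x hx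
    exact (mm_false _ _).2 (h x hx)

theorem mem_toSet (F : List (List Lit)) (D : Finset Lit) :
    D ∈ toSet F ↔ ∃ C ∈ F, C.toFinset = D := by
  simp [toSet]

theorem foldl_ddp (C : List Lit) : ∀ A : List Lit, A.Nodup →
    (∀ x, x ∈ C.foldl (fun A x => bif mm x A then A else x :: A) A ↔ x ∈ A ∨ x ∈ C) ∧
      (C.foldl (fun A x => bif mm x A then A else x :: A) A).Nodup := by
  induction C with
  | nil =>
    intro A hA
    exact ⟨fun x => by simp, hA⟩
  | cons a C ih =>
    intro A hA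
    rw [List.foldl_cons]
    by_cases h : a ∈ A
    · rw [(mm_iff a A).2 h]
      simp only [cond_true]
      obtain ⟨h1, h2⟩ := ih A hA
      refine ⟨fun x => ?_, h2⟩
      rw [h1 x, List.mem_cons]
      constructor
      · rintro (h | h)
        · exact Or.inl h
        · exact Or.inr (Or.inr h)
      · rintro (h | h | h)
        · exact Or.inl h
        · rw [h]; left; assumption
        · exact Or.inr h
    · have hf : mm a A = false := by
        by_contra hh
        exact h ((mm_iff a A).1 (by simpa using hh))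
      rw [hf]
      simp only [cond_false]
      obtain ⟨h1, h2⟩ := ih (a :: A) (List.nodup_cons.2 ⟨h, hA⟩)
      refine ⟨fun x => ?_, h2⟩
      rw [h1 x, List.mem_cons, List.mem_cons]
      tauto

theorem mem_ddp (C : List Lit) (x : Lit) : x ∈ ddp C ↔ x ∈ C := by
  unfold ddp
  rw [(foldl_ddp C [] List.nodup_nil).1 x]
  simp

theorem nodup_ddp (C : List Lit) : (ddp C).Nodup := (foldl_ddp C [] List.nodup_nil).2

theorem toSet_ddp (F : List (List Lit)) : toSet (F.map ddp) = toSet F := by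
  have h : ∀ C, (ddp C).toFinset = C.toFinset := by
    intro C
    ext x
    rw [List.mem_toFinset, List.mem_toFinset, mem_ddp]
  unfold toSet
  rw [List.map_map]
  congr 1
  apply List.map_congr_left
  intro C _
  exact h C

theorem cl_eq {C : List Lit} (hC : C.Nodup) (D : List Lit) :
    cl C D = clash C.toFinset D.toFinset := by
  unfold cl clash
  rw [← List.toFinset_card_of_nodup (hC.filter _)]
  congr 1
  ext x
  simp only [List.mem_toFinset, List.mem_filter, Finset.mem_filter, mm_iff]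

theorem toSet_restrL (L : List Lit) (G : List (List Lit)) :
    toSet (restrL L G) = restr L.toFinset (toSet G) := by
  ext D
  rw [mem_toSet]
  unfold restrL restr
  rw [Finset.mem_image]
  constructor
  · rintro ⟨C, hC, rfl⟩
    obtain ⟨C', hC', rfl⟩ := List.mem_map.1 hC
    rw [List.mem_filter, List.all_eq_true] at hC'
    refine ⟨C'.toFinset, Finset.mem_filter.2 ⟨(mem_toSet _ _).2 ⟨C', hC'.1, rfl⟩, ?_⟩, ?_⟩
    · intro x hx
      rw [List.mem_toFinset] at hx ⊢
      exact (mm_false _ _).1 (hC'.2 x hx)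
    · ext x
      simp only [List.mem_toFinset, List.mem_filter, Finset.mem_filter, mm_false]
  · rintro ⟨C'', hC, rfl⟩
    rw [Finset.mem_filter, mem_toSet] at hC
    obtain ⟨⟨C, hC1, rfl⟩, hC2⟩ := hC
    refine ⟨_, List.mem_map.2 ⟨C, List.mem_filter.2 ⟨hC1, ?_⟩, rfl⟩, ?_⟩
    · rw [List.all_eq_true]
      intro x hx
      rw [mm_false]
      have := hC2 x (List.mem_toFinset.2 hx)
      rwa [List.mem_toFinset] at this
    · ext x
      simp only [List.mem_toFinset, List.mem_filter, Finset.mem_filter, mm_false]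

theorem nodup_restrL {G : List (List Lit)} (hG : ∀ C ∈ G, C.Nodup) (L : List Lit) :
    ∀ C ∈ restrL L G, C.Nodup := by
  intro C hC
  obtain ⟨C', hC', rfl⟩ := List.mem_map.1 hC
  exact (hG _ (List.mem_filter.1 hC').1).filter _

theorem toSet_redL {G : List (List Lit)} (hG : ∀ C ∈ G, C.Nodup) :
    toSet (redL G) = red (toSet G) := by
  have key : ∀ C ∈ G, ((G.any fun D => !(decide (cl C D = 0))) = true ↔
      ∃ D ∈ toSet G, clash C.toFinset D ≠ 0) := by
    intro C hC
    rw [List.any_eq_true]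
    constructor
    · rintro ⟨D, hD, h⟩
      refine ⟨D.toFinset, (mem_toSet _ _).2 ⟨D, hD, rfl⟩, ?_⟩
      rw [← cl_eq (hG C hC)]
      simpa using h
    · rintro ⟨D, hD, h⟩
      obtain ⟨D', hD', rfl⟩ := (mem_toSet _ _).1 hD
      refine ⟨D', hD', ?_⟩
      rw [← cl_eq (hG C hC)] at h
      simpa using h
  ext D
  unfold redL red
  rw [mem_toSet, Finset.mem_filter, mem_toSet]
  constructor
  · rintro ⟨C, hC, rfl⟩
    rw [List.mem_filter] at hC
    exact ⟨⟨C, hC.1, rfl⟩, (key C hC.1).1 hC.2⟩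
  · rintro ⟨⟨C, hC, rfl⟩, h⟩
    exact ⟨C, List.mem_filter.2 ⟨hC, (key C hC).2 h⟩, rfl⟩

theorem nodup_redL {G : List (List Lit)} (hG : ∀ C ∈ G, C.Nodup) : ∀ C ∈ redL G, C.Nodup :=
  fun C hC => hG C (List.mem_filter.1 hC).1

theorem mem_clsL {G : List (List Lit)} (hG : ∀ C ∈ G, C.Nodup) {C0 : List Lit} (h0 : C0 ∈ G)
    (C : List Lit) : C ∈ clsL G C0 ↔ C ∈ G ∧ C.toFinset ∈ cls (toSet G) C0.toFinset := by
  unfold clsL cls
  rw [List.mem_filter, List.all_eq_true, Finset.mem_filter]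
  constructor
  · rintro ⟨h1, h2⟩
    refine ⟨h1, (mem_toSet _ _).2 ⟨C, h1, rfl⟩, ?_⟩
    intro E hE
    obtain ⟨E', hE', rfl⟩ := (mem_toSet _ _).1 hE
    rw [← cl_eq (hG C h1), ← cl_eq (hG C0 h0)]
    simpa using h2 E' hE'
  · rintro ⟨h1, h2, h3⟩
    refine ⟨h1, ?_⟩
    intro E hE
    have := h3 _ ((mem_toSet _ _).2 ⟨E, hE, rfl⟩)
    rw [← cl_eq (hG C h1), ← cl_eq (hG C0 h0)] at this
    simpa using this

theorem mem_flatten_clsL {G : List (List Lit)} (hG : ∀ C ∈ G, C.Nodup) {C0 : List Lit}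
    (h0 : C0 ∈ G) (x : Lit) : x ∈ (clsL G C0).flatten ↔ x ∈ vs (toSet G) C0.toFinset := by
  unfold vs
  rw [List.mem_flatten, Finset.mem_biUnion]
  constructor
  · rintro ⟨C, hC, hx⟩
    exact ⟨C.toFinset, ((mem_clsL hG h0 C).1 hC).2, List.mem_toFinset.2 hx⟩
  · rintro ⟨D, hD, hx⟩
    have hD1 : D ∈ toSet G := (Finset.mem_filter.1 hD).1
    obtain ⟨C, hC, rfl⟩ := (mem_toSet _ _).1 hD1
    exact ⟨C, (mem_clsL hG h0 C).2 ⟨hC, hD⟩, List.mem_toFinset.1 hx⟩

theorem toSet_zerL {G : List (List Lit)} {C0 : List Lit} (h0 : C0.Nodup) :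
    toSet (zerL G C0) = zer (toSet G) C0.toFinset := by
  ext D
  unfold zerL zer
  rw [mem_toSet, Finset.mem_filter, mem_toSet]
  constructor
  · rintro ⟨C, hC, rfl⟩
    rw [List.mem_filter] at hC
    refine ⟨⟨C, hC.1, rfl⟩, ?_⟩
    rw [← cl_eq h0]
    simpa using hC.2
  · rintro ⟨⟨C, hC, rfl⟩, h⟩
    refine ⟨C, List.mem_filter.2 ⟨hC, ?_⟩, rfl⟩
    rw [← cl_eq h0] at h
    simpa using h

theorem nodup_zerL {G : List (List Lit)} (hG : ∀ C ∈ G, C.Nodup) (C0 : List Lit) :
    ∀ C ∈ zerL G C0, C.Nodup := fun C hC => hG C (List.mem_filter.1 hC).1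

theorem privL_toFinset (x : Lit) (C : List Lit) : (privL x C).toFinset = priv x C.toFinset := by
  ext z
  unfold privL priv
  simp only [List.mem_toFinset, List.mem_cons, List.mem_map, List.mem_filter, Finset.mem_insert,
    Finset.mem_image, Finset.mem_erase]
  constructor
  · rintro (h | ⟨y, ⟨h1, h2⟩, rfl⟩)
    · exact Or.inl h
    · exact Or.inr ⟨y, ⟨by simpa using h2, h1⟩, rfl⟩
  · rintro (h | ⟨y, ⟨h1, h2⟩, rfl⟩)
    · exact Or.inl h
    · exact Or.inr ⟨y, ⟨h2, by simpa using h1⟩, rfl⟩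

theorem old_toFinset (V : List Lit) (W : Finset Lit) (hV : ∀ x, x ∈ V ↔ x ∈ W) (D : List Lit) :
    (V.map (agr D)).toFinset = old W D.toFinset := by
  have h : ∀ p, agr D p = if neg p ∈ D.toFinset then p else neg p := by
    intro p
    unfold agr
    by_cases hn : neg p ∈ D
    · rw [(mm_iff _ _).2 hn, if_pos (List.mem_toFinset.2 hn)]
      rfl
    · have : mm (neg p) D = false := by
        by_contra hh
        exact hn ((mm_iff _ _).1 (by simpa using hh))
      rw [this, if_neg (fun h => hn (List.mem_toFinset.1 h))]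
      rfl
  ext z
  unfold old
  rw [List.mem_toFinset, List.mem_map, Finset.mem_image]
  constructor
  · rintro ⟨p, hp, rfl⟩
    exact ⟨p, (hV p).1 hp, (h p).symm⟩
  · rintro ⟨p, hp, rfl⟩
    exact ⟨p, (hV p).2 hp, h p⟩

end PHR
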