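import Mathlib

/-!
# The potential of a symmetric matrix of natural numbers

`rkN M` is the rank. `Z` = vectors of the row space with entries 0, 1 (at most `2 ^ rk` of them),
dead = elements of `Z` which are not rows, order pairs = pairs `v ≤ w` in `Z`.
`P = |Z| + #dead + #pairs ≤ Pm rk`. `bud M = ∑ i < rk, (Pm i + 2) + (Pm rk - P)`.
All facts are for `M' = fun i j => M (f i) (f j)` with an arbitrary map `f : m' → m`.
Key fact: if `rk M' = rk M` then `v ↦ v ∘ f` is injective on the row space of `M` and maps it into the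
row space of `M'`.
-/

namespace PHR

open Finset

/-- The rank of a matrix of natural numbers. -/
noncomputable def rkN {m : Type} [Fintype m] (M : m → m → ℕ) : ℕ :=
  (Matrix.of fun i j => (M i j : ℝ)).rank

/-- Bound for the potential in rank `i`. -/
def Pm (i : ℕ) : ℕ := 2 * 2 ^ i + 4 ^ i

/-- Bound for the budget in rank at most `r`. -/
def Bd (r : ℕ) : ℕ := ∑ i ∈ Finset.range (r + 1), (Pm i + 2)

/-- The row of `i`. -/
def prow {m : Type} (M : m → m → ℕ) (i : m) : m → ℝ := fun j => (M i j : ℝ)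

/-- The row space. -/
noncomputable def rsp {m : Type} (M : m → m → ℕ) : Submodule ℝ (m → ℝ) :=
  Submodule.span ℝ (Set.range (prow M))

/-- The 0/1 vectors of the row space. -/
def zset {m : Type} (M : m → m → ℕ) : Set (m → ℝ) :=
  {v | v ∈ rsp M ∧ ∀ j, v j = 0 ∨ v j = 1}

/-- The 0/1 vectors of the row space which are not rows. -/
def dead {m : Type} (M : m → m → ℕ) : Set (m → ℝ) :=
  {v | v ∈ zset M ∧ ∀ i, prow M i ≠ v}

/-- The order relations between 0/1 vectors of the row space. -/
def ords {m : Type} (M : m → m → ℕ) : Set ((m → ℝ) × (m → ℝ)) :=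
  {p | (p.1 ∈ zset M ∧ p.2 ∈ zset M) ∧ p.1 ≤ p.2}

/-- The potential. -/
noncomputable def pot {m : Type} (M : m → m → ℕ) : ℕ :=
  (zset M).ncard + (dead M).ncard + (ords M).ncard

/-- The budget. -/
noncomputable def bud {m : Type} [Fintype m] (M : m → m → ℕ) : ℕ :=
  ∑ i ∈ Finset.range (rkN M), (Pm i + 2) + (Pm (rkN M) - pot M)

variable {m m' : Type} [Fintype m] [Fintype m'] (M : m → m → ℕ)

theorem rkN_eq : rkN M = Module.finrank ℝ (rsp M) := by
  unfold rkN rsp
  rw [Matrix.rank_eq_finrank_span_row]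
  rfl

theorem rkN_mono (f : m' → m) : rkN (fun i j => M (f i) (f j)) ≤ rkN M :=
  Matrix.rank_submatrix_le (Matrix.of fun (i j : m) => (M i j : ℝ)) f f

/-- Restriction of vectors. -/
def res (f : m' → m) : (m → ℝ) →ₗ[ℝ] (m' → ℝ) := LinearMap.funLeft ℝ ℝ f

omit [Fintype m] [Fintype m'] in
theorem res_apply (f : m' → m) (z : m → ℝ) (j : m') : res f z j = z (f j) := rfl

omit [Fintype m] in
theorem prow_mem (i : m) : prow M i ∈ rsp M := Submodule.subset_span ⟨i, rfl⟩

/-- The rows in the image of `f`. -/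
noncomputable def usp (f : m' → m) : Submodule ℝ (m → ℝ) :=
  Submodule.span ℝ (Set.range (fun i => prow M (f i)))

omit [Fintype m] [Fintype m'] in
theorem usp_le (f : m' → m) : usp M f ≤ rsp M := by
  apply Submodule.span_mono
  rintro _ ⟨i, rfl⟩
  exact ⟨f i, rfl⟩

omit [Fintype m] [Fintype m'] in
theorem map_usp (f : m' → m) : (usp M f).map (res f) = rsp (fun i j => M (f i) (f j)) := by
  unfold usp rsp
  rw [Submodule.map_span]
  congr 1
  ext z
  simp only [Set.mem_image, Set.mem_range]
  constructor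
  · rintro ⟨_, ⟨i, rfl⟩, rfl⟩
    exact ⟨i, rfl⟩
  · rintro ⟨i, rfl⟩
    exact ⟨_, ⟨i, rfl⟩, rfl⟩

variable {M}

theorem usp_eq {f : m' → m} (hr : rkN (fun i j => M (f i) (f j)) = rkN M) :
    usp M f = rsp M := by
  apply Submodule.eq_of_le_of_finrank_le (usp_le M f)
  rw [← rkN_eq, ← hr, rkN_eq, ← map_usp M f]
  exact Submodule.finrank_map_le _ _

theorem map_rsp {f : m' → m} (hr : rkN (fun i j => M (f i) (f j)) = rkN M) :
    (rsp M).map (res f) = rsp (fun i j => M (f i) (f j)) := by
  rw [← usp_eq hr, map_usp M f]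

/-- A vector of the row space which vanishes on the image of `f` vanishes. -/
theorem eq_zero_of_res {f : m' → m} (hr : rkN (fun i j => M (f i) (f j)) = rkN M)
    {z : m → ℝ} (hz : z ∈ rsp M) (h0 : res f z = 0) : z = 0 := by
  have h1 := LinearMap.finrank_range_add_finrank_ker ((res f).domRestrict (rsp M))
  have h2 : Module.finrank ℝ (LinearMap.range ((res f).domRestrict (rsp M))) =
      Module.finrank ℝ (rsp M) := by
    rw [LinearMap.range_domRestrict, map_rsp hr, ← rkN_eq, ← rkN_eq, hr]
  have h3 : Module.finrank ℝ (LinearMap.ker ((res f).domRestrict (rsp M))) = 0 := by omega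
  have h4 := Submodule.finrank_eq_zero.mp h3
  have h5 : (⟨z, hz⟩ : rsp M) ∈ LinearMap.ker ((res f).domRestrict (rsp M)) := by
    rw [LinearMap.mem_ker]
    exact h0
  rw [h4, Submodule.mem_bot] at h5
  exact congrArg Subtype.val h5

theorem eq_of_res {f : m' → m} (hr : rkN (fun i j => M (f i) (f j)) = rkN M)
    {z w : m → ℝ} (hz : z ∈ rsp M) (hw : w ∈ rsp M) (h0 : res f z = res f w) : z = w := by
  have h1 := eq_zero_of_res hr (Submodule.sub_mem _ hz hw) (by rw [map_sub, h0, sub_self])
  exact sub_eq_zero.mp h1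

theorem res_mem {f : m' → m} (hr : rkN (fun i j => M (f i) (f j)) = rkN M)
    {z : m → ℝ} (hz : z ∈ rsp M) : res f z ∈ rsp (fun i j => M (f i) (f j)) := by
  rw [← map_rsp hr]
  exact Submodule.mem_map_of_mem hz

theorem zset_mem {f : m' → m} (hr : rkN (fun i j => M (f i) (f j)) = rkN M)
    {z : m → ℝ} (hz : z ∈ zset M) : res f z ∈ zset (fun i j => M (f i) (f j)) :=
  ⟨res_mem hr hz.1, fun j => hz.2 (f j)⟩

theorem dead_mem {f : m' → m} (hr : rkN (fun i j => M (f i) (f j)) = rkN M)
    {z : m → ℝ} (hz : z ∈ dead M) : res f z ∈ dead (fun i j => M (f i) (f j)) := by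
  refine ⟨zset_mem hr hz.1, fun i he => hz.2 (f i) ?_⟩
  exact eq_of_res hr (prow_mem M (f i)) hz.1.1 he

theorem ords_mem {f : m' → m} (hr : rkN (fun i j => M (f i) (f j)) = rkN M)
    {p : (m → ℝ) × (m → ℝ)} (hp : p ∈ ords M) :
    (res f p.1, res f p.2) ∈ ords (fun i j => M (f i) (f j)) :=
  ⟨⟨zset_mem hr hp.1.1, zset_mem hr hp.1.2⟩, fun j => hp.2 (f j)⟩

theorem ords_inj {f : m' → m} (hr : rkN (fun i j => M (f i) (f j)) = rkN M)
    {p q : (m → ℝ) × (m → ℝ)} (hp : p ∈ ords M) (hq : q ∈ ords M)
    (he : (res f p.1, res f p.2) = (res f q.1, res f q.2)) : p = q := by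
  rw [Prod.mk.injEq] at he
  exact Prod.ext (eq_of_res hr hp.1.1.1 hq.1.1.1 he.1) (eq_of_res hr hp.1.2.1 hq.1.2.1 he.2)

theorem zset_finite (M : m → m → ℕ) : (zset M).Finite := by
  apply (Set.Finite.pi' (t := fun _ : m => ({0, 1} : Set ℝ)) (fun _ => Set.toFinite _)).subset
  intro v hv j
  simpa using hv.2 j

theorem dead_finite (M : m → m → ℕ) : (dead M).Finite :=
  (zset_finite M).subset fun _ hv => hv.1

theorem ords_finite (M : m → m → ℕ) : (ords M).Finite :=
  ((zset_finite M).prod (zset_finite M)).subset fun _ hp => hp.1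

theorem ncard_lt_of_image {α β : Type} {s : Set α} {t : Set β} (f : α → β) (ht : t.Finite)
    (hm : ∀ x ∈ s, f x ∈ t) (hi : ∀ x ∈ s, ∀ y ∈ s, f x = f y → x = y)
    (y : β) (hy : y ∈ t) (hn : ∀ x ∈ s, f x ≠ y) : s.ncard < t.ncard := by
  have h1 : (f '' s).ncard = s.ncard :=
    Set.InjOn.ncard_image fun x hx y hy h => hi x hx y hy h
  rw [← h1]
  apply Set.ncard_lt_ncard _ ht
  refine ⟨Set.image_subset_iff.mpr hm, fun hc => ?_⟩
  obtain ⟨x, hx, rfl⟩ := hc hy
  exact hn x hx rfl

theorem zset_le {f : m' → m} (hr : rkN (fun i j => M (f i) (f j)) = rkN M) :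
    (zset M).ncard ≤ (zset (fun i j => M (f i) (f j))).ncard :=
  Set.ncard_le_ncard_of_injOn (res f) (fun _ hS => zset_mem hr hS)
    (fun _ hS _ hT he => eq_of_res hr hS.1 hT.1 he) (zset_finite _)

theorem dead_le {f : m' → m} (hr : rkN (fun i j => M (f i) (f j)) = rkN M) :
    (dead M).ncard ≤ (dead (fun i j => M (f i) (f j))).ncard :=
  Set.ncard_le_ncard_of_injOn (res f) (fun _ hS => dead_mem hr hS)
    (fun _ hS _ hT he => eq_of_res hr hS.1.1 hT.1.1 he) (dead_finite _)

theorem ords_le {f : m' → m} (hr : rkN (fun i j => M (f i) (f j)) = rkN M) :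
    (ords M).ncard ≤ (ords (fun i j => M (f i) (f j))).ncard :=
  Set.ncard_le_ncard_of_injOn (fun p => (res f p.1, res f p.2)) (fun _ hp => ords_mem hr hp)
    (fun _ hp _ hq he => ords_inj hr hp hq he) (ords_finite _)

/-- A subspace of dimension `r` contains at most `2 ^ r` vectors with entries 0, 1. -/
theorem zset_card_le (M : m → m → ℕ) : (zset M).ncard ≤ 2 ^ rkN M := by
  classical
  let φ : m → Module.Dual ℝ (rsp M) := fun j => (LinearMap.proj j).comp (rsp M).subtype
  obtain ⟨b, -, -, hspan, hli⟩ := exists_linearIndepOn_extension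
    (K := ℝ) (v := φ) (s := ∅) (t := Set.univ)
    (linearIndepOn_empty ℝ φ) (Set.empty_subset _)
  have hbf : b.Finite := Set.toFinite b
  obtain ⟨X, rfl⟩ := hbf.exists_finset_coe
  have hX : X.card ≤ rkN M := by
    have h1 : LinearIndependent ℝ (fun j : X => φ j.1) := hli
    have h2 := h1.fintype_card_le_finrank
    rw [Fintype.card_coe, Subspace.dual_finrank_eq] at h2
    rw [rkN_eq]
    exact h2
  have hker : ∀ z : rsp M, (∀ j ∈ X, φ j z = 0) → z = 0 := by
    intro z hz
    have h1 : Submodule.span ℝ (φ '' (X : Set m)) ≤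
        LinearMap.ker (LinearMap.applyₗ (R := ℝ) (M₂ := ℝ) z) := by
      apply Submodule.span_le.mpr
      rintro _ ⟨j, hj, rfl⟩
      simpa using hz j hj
    apply Subtype.ext
    funext j
    have h2 : φ j ∈ Submodule.span ℝ (φ '' (X : Set m)) := hspan ⟨j, trivial, rfl⟩
    have h3 : (φ j) z = 0 := by simpa using h1 h2
    exact h3
  have hinj : (zset M).ncard ≤ ((X.powerset : Finset (Finset m)) : Set (Finset m)).ncard := by
    apply Set.ncard_le_ncard_of_injOn (fun v : m → ℝ => X.filter (fun j => v j = 1))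
    · intro v _
      simp only [Finset.coe_powerset, Set.mem_preimage, Set.mem_powerset_iff, Finset.coe_subset]
      exact Finset.filter_subset _ _
    · intro v hv w hw he
      have h1 := hker ⟨v - w, Submodule.sub_mem _ hv.1 hw.1⟩ (by
        intro j hj
        have h2 : v j = 1 ↔ w j = 1 := by
          have h3 : j ∈ X.filter (fun j => v j = 1) ↔ j ∈ X.filter (fun j => w j = 1) := by
            have he' : X.filter (fun j => v j = 1) = X.filter (fun j => w j = 1) := he
            rw [he']
          simpa [hj] using h3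
        have h4 : v j = w j := by
          rcases hv.2 j with h5 | h5
          · rcases hw.2 j with h6 | h6
            · rw [h5, h6]
            · rw [h5, h6] at h2
              norm_num at h2
          · rw [h5, h2.mp h5]
        simp [φ, h4])
      exact sub_eq_zero.mp (congrArg Subtype.val h1)
  refine hinj.trans ?_
  rw [Set.ncard_coe_finset, Finset.card_powerset]
  exact Nat.pow_le_pow_right (by norm_num) hX

theorem pot_le (M : m → m → ℕ) : pot M ≤ Pm (rkN M) := by
  have h1 := zset_card_le M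
  have h2 : (dead M).ncard ≤ 2 ^ rkN M :=
    (Set.ncard_le_ncard (fun _ hv => hv.1) (zset_finite M)).trans h1
  have h3 : (ords M).ncard ≤ 4 ^ rkN M := by
    have h4 : (ords M).ncard ≤ ((zset M) ×ˢ (zset M)).ncard :=
      Set.ncard_le_ncard (fun _ hp => hp.1) ((zset_finite M).prod (zset_finite M))
    rw [Set.ncard_prod] at h4
    refine h4.trans ?_
    calc (zset M).ncard * (zset M).ncard ≤ 2 ^ rkN M * 2 ^ rkN M := Nat.mul_le_mul h1 h1
      _ = 4 ^ rkN M := by rw [← Nat.mul_pow]
  unfold pot Pm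
  omega

theorem bud_lt_of_rk {f : m' → m} (h : rkN (fun i j => M (f i) (f j)) < rkN M) :
    bud (fun i j => M (f i) (f j)) < bud M := by
  unfold bud
  have h1 : ∑ i ∈ Finset.range (rkN (fun i j => M (f i) (f j)) + 1), (Pm i + 2) ≤
      ∑ i ∈ Finset.range (rkN M), (Pm i + 2) :=
    Finset.sum_le_sum_of_subset (Finset.range_mono h)
  rw [Finset.sum_range_succ] at h1
  omega

theorem bud_lt_of_pot (f : m' → m)
    (hp : rkN (fun i j => M (f i) (f j)) = rkN M → pot M < pot (fun i j => M (f i) (f j))) :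
    bud (fun i j => M (f i) (f j)) < bud M := by
  rcases (rkN_mono M f).lt_or_eq with h1 | h1
  · exact bud_lt_of_rk h1
  · have h2 := hp h1
    have h3 := pot_le (fun i j => M (f i) (f j))
    unfold bud
    rw [h1] at h3 ⊢
    omega

variable (M)

set_option linter.unusedVariables false in
theorem bud_le (hM : ∀ i j, M i j = M j i) {r : ℕ} (h : rkN M ≤ r) : bud M ≤ Bd r := by
  unfold bud Bd
  have h1 : ∑ i ∈ Finset.range (rkN M + 1), (Pm i + 2) ≤
      ∑ i ∈ Finset.range (r + 1), (Pm i + 2) :=
    Finset.sum_le_sum_of_subset (Finset.range_mono (Nat.succ_le_succ h))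
  rw [Finset.sum_range_succ] at h1
  omega

set_option linter.unusedVariables false in
theorem bud_mono (hM : ∀ i j, M i j = M j i) (f : m' → m) :
    bud (fun i j => M (f i) (f j)) ≤ bud M := by
  rcases (rkN_mono M f).lt_or_eq with h1 | h1
  · exact (bud_lt_of_rk h1).le
  · have h2 : pot M ≤ pot (fun i j => M (f i) (f j)) := by
      unfold pot
      exact Nat.add_le_add (Nat.add_le_add (zset_le h1) (dead_le h1)) (ords_le h1)
    unfold bud
    rw [h1]
    omega

omit [Fintype m] in
theorem prow_01 {i0 : m} (h : ∀ j, M i0 j ≤ 1) (j : m) : prow M i0 j = 0 ∨ prow M i0 j = 1 := by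
  have h1 := h j
  unfold prow
  rcases Nat.le_one_iff_eq_zero_or_eq_one.mp h1 with h2 | h2
  · left
    rw [h2]
    norm_num
  · right
    rw [h2]
    norm_num

set_option linter.unusedVariables false in
/-- A row which is not 0/1 becomes 0/1. -/
theorem bud_new (hM : ∀ i j, M i j = M j i) (f : m' → m) (i0 : m) (h1 : ∃ j, 2 ≤ M i0 j)
    (h2 : ∀ j', M i0 (f j') ≤ 1) : bud (fun i j => M (f i) (f j)) < bud M := by
  apply bud_lt_of_pot
  intro hr
  have hz : (zset M).ncard < (zset (fun i j => M (f i) (f j))).ncard := by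
    apply ncard_lt_of_image (res f) (zset_finite _) (fun _ hS => zset_mem hr hS)
      (fun _ hS _ hT he => eq_of_res hr hS.1 hT.1 he) (res f (prow M i0))
    · refine ⟨res_mem hr (prow_mem M i0), fun j => ?_⟩
      have h3 := h2 j
      rw [res_apply]
      unfold prow
      rcases Nat.le_one_iff_eq_zero_or_eq_one.mp h3 with h4 | h4
      · left
        rw [h4]
        norm_num
      · right
        rw [h4]
        norm_num
    · intro v hv he
      obtain ⟨j, hj⟩ := h1
      have h3 : v = prow M i0 := eq_of_res hr hv.1 (prow_mem M i0) he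
      have h4 := hv.2 j
      have h5 : (2 : ℝ) ≤ (M i0 j : ℝ) := by exact_mod_cast hj
      rw [h3] at h4
      unfold prow at h4
      rcases h4 with h4 | h4 <;> linarith
  unfold pot
  have := dead_le hr
  have := ords_le hr
  omega

set_option linter.unusedVariables false in
/-- A 0/1 row whose class disappears. -/
theorem bud_kill (hM : ∀ i j, M i j = M j i) (f : m' → m) (i0 : m) (h1 : ∀ j, M i0 j ≤ 1)
    (h2 : ∀ j', ¬ ∀ j, M (f j') j = M i0 j) : bud (fun i j => M (f i) (f j)) < bud M := by
  apply bud_lt_of_pot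
  intro hr
  have hmem : prow M i0 ∈ zset M := ⟨prow_mem M i0, prow_01 M h1⟩
  have hz : (dead M).ncard < (dead (fun i j => M (f i) (f j))).ncard := by
    apply ncard_lt_of_image (res f) (dead_finite _) (fun _ hS => dead_mem hr hS)
      (fun _ hS _ hT he => eq_of_res hr hS.1.1 hT.1.1 he) (res f (prow M i0))
    · refine ⟨zset_mem hr hmem, fun i he => h2 i ?_⟩
      have h3 : prow M (f i) = prow M i0 := eq_of_res hr (prow_mem M (f i)) (prow_mem M i0) he
      intro j
      have h4 := congrFun h3 j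
      unfold prow at h4
      exact_mod_cast h4
    · intro v hv he
      have h3 : v = prow M i0 := eq_of_res hr hv.1.1 (prow_mem M i0) he
      exact hv.2 i0 h3.symm
  unfold pot
  have := zset_le hr
  have := ords_le hr
  omega

set_option linter.unusedVariables false in
/-- Two 0/1 rows which become ordered. -/
theorem bud_ord (hM : ∀ i j, M i j = M j i) (f : m' → m) (a b : m) (ha : ∀ j, M a j ≤ 1)
    (hb : ∀ j, M b j ≤ 1) (h1 : ∃ j, M b j < M a j) (h2 : ∀ j', M a (f j') ≤ M b (f j')) :
    bud (fun i j => M (f i) (f j)) < bud M := by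
  apply bud_lt_of_pot
  intro hr
  have hma : prow M a ∈ zset M := ⟨prow_mem M a, prow_01 M ha⟩
  have hmb : prow M b ∈ zset M := ⟨prow_mem M b, prow_01 M hb⟩
  have hz : (ords M).ncard < (ords (fun i j => M (f i) (f j))).ncard := by
    apply ncard_lt_of_image (fun p : (m → ℝ) × (m → ℝ) => (res f p.1, res f p.2)) (ords_finite _)
      (fun _ hS => ords_mem hr hS)
      (fun _ hS _ hT he => ords_inj hr hS hT he) (res f (prow M a), res f (prow M b))
    · refine ⟨⟨zset_mem hr hma, zset_mem hr hmb⟩, fun j => ?_⟩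
      simp only [res_apply, prow]
      exact_mod_cast h2 j
    · intro p hp he
      simp only [Prod.mk.injEq] at he
      have e1 : p.1 = prow M a := eq_of_res hr hp.1.1.1 (prow_mem M a) he.1
      have e2 : p.2 = prow M b := eq_of_res hr hp.1.2.1 (prow_mem M b) he.2
      obtain ⟨j, hj⟩ := h1
      have h5 := hp.2 j
      rw [e1, e2] at h5
      have h7 : (M a j : ℝ) ≤ (M b j : ℝ) := h5
      have h6 : M a j ≤ M b j := by exact_mod_cast h7
      omega
  unfold pot
  have := zset_le hr
  have := dead_le hr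
  omega

set_option linter.unusedVariables false in
/-- A nonzero row which vanishes. -/
theorem bud_zero (hM : ∀ i j, M i j = M j i) (f : m' → m) (i0 : m) (h1 : ∃ j, M i0 j ≠ 0)
    (h2 : ∀ j', M i0 (f j') = 0) : bud (fun i j => M (f i) (f j)) < bud M := by
  apply bud_lt_of_pot
  intro hr
  exfalso
  obtain ⟨j, hj⟩ := h1
  have h3 : prow M i0 = 0 := by
    apply eq_zero_of_res hr (prow_mem M i0)
    funext i
    simp [res_apply, prow, h2 i]
  have h4 := congrFun h3 j
  unfold prow at h4
  simp only [Pi.zero_apply, Nat.cast_eq_zero] at h4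
  exact hj h4

end PHR
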