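import Pool.Agent.PHR.Defs
import Pool.Agent.PHR.Pot

/-!
# Restriction of clause-sets (finset level)
-/

namespace PHR

open Finset

@[simp] theorem neg_neg (x : Lit) : neg (neg x) = x := by simp [neg]

theorem neg_ne (x : Lit) : neg x ≠ x := by
  intro h
  have h2 := congrArg Prod.snd h
  simp [neg] at h2

theorem Tr_neg (τ : Var → Bool) (x : Lit) : Tr τ (neg x) ↔ ¬ Tr τ x := by
  unfold Tr neg
  cases h1 : τ x.1 <;> cases h2 : x.2 <;> simp [h1, h2]

theorem clash_comm (C D : Finset Lit) : clash C D = clash D C := by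
  unfold clash
  apply Finset.card_nbij' neg neg
  · intro x hx
    simp only [Finset.coe_filter, Set.mem_setOf_eq] at hx ⊢
    exact ⟨hx.2, by rw [neg_neg]; exact hx.1⟩
  · intro x hx
    simp only [Finset.coe_filter, Set.mem_setOf_eq] at hx ⊢
    exact ⟨hx.2, by rw [neg_neg]; exact hx.1⟩
  · intro x _; exact neg_neg x
  · intro x _; exact neg_neg x

theorem clash_ne_zero {C D : Finset Lit} : clash C D ≠ 0 ↔ ∃ x ∈ C, neg x ∈ D := by
  unfold clash
  rw [Ne, Finset.card_eq_zero, ← Ne, ← Finset.nonempty_iff_ne_empty, Finset.filter_nonempty_iff]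

theorem restr_isClause {S : Finset (Finset Lit)} (hS : ∀ C ∈ S, IsClause C) (L : Finset Lit) :
    ∀ C ∈ restr L S, IsClause C := by
  intro C hC x hx hnx
  unfold restr at hC
  rw [Finset.mem_image] at hC
  obtain ⟨C', hC', rfl⟩ := hC
  rw [Finset.mem_filter] at hC' hx hnx
  exact hS C' hC'.1 x hx.1 hnx.1

/-- A satisfying assignment which makes all literals of `L` true satisfies the restriction. -/
theorem Mod.restr {τ : Var → Bool} {S : Finset (Finset Lit)} (h : Mod τ S) {L : Finset Lit}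
    (hL : ∀ x ∈ L, Tr τ x) : Mod τ (restr L S) := by
  intro C hC
  unfold PHR.restr at hC
  rw [Finset.mem_image] at hC
  obtain ⟨C', hC', rfl⟩ := hC
  rw [Finset.mem_filter] at hC'
  obtain ⟨x, hx, hxt⟩ := h C' hC'.1
  refine ⟨x, ?_, hxt⟩
  rw [Finset.mem_filter]
  refine ⟨hx, fun hn => ?_⟩
  exact (Tr_neg τ x).1 (hL _ hn) hxt

/-- Pull back the clauses of a restriction to surviving clauses of `S`; clash numbers are kept:
`x ∈ f C` with `neg x ∈ f D`: `x ∉ L` and `neg x ∉ L`, so `x` stays in `C`, `neg x` in `D`. -/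
theorem exists_pull (L : Finset Lit) (S : Finset (Finset Lit)) :
    ∃ f : {C // C ∈ restr L S} → {C // C ∈ S}, (∀ C, ∀ x ∈ (f C).1, x ∉ L) ∧
      ∀ C D, clash C.1 D.1 = clash (f C).1 (f D).1 := by
  have hex : ∀ C : {C // C ∈ restr L S}, ∃ C' : {C // C ∈ S}, (∀ x ∈ C'.1, x ∉ L) ∧
      C.1 = C'.1.filter (fun x => neg x ∉ L) := by
    intro C
    have hC := C.2
    unfold restr at hC
    rw [Finset.mem_image] at hC
    obtain ⟨C', hC', hEq⟩ := hC
    rw [Finset.mem_filter] at hC'
    exact ⟨⟨C', hC'.1⟩, hC'.2, hEq.symm⟩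
  choose f hf1 hf2 using hex
  refine ⟨f, hf1, fun C D => ?_⟩
  unfold clash
  congr 1
  ext x
  rw [hf2 C, hf2 D]
  simp only [Finset.mem_filter, neg_neg]
  constructor
  · rintro ⟨⟨h1, _⟩, h2, _⟩
    exact ⟨h1, h2⟩
  · rintro ⟨h1, h2⟩
    exact ⟨⟨h1, hf1 D _ h2⟩, h2, hf1 C _ h1⟩

/-- The matrix of clash numbers. -/
def cm (S : Finset (Finset Lit)) : {C // C ∈ S} → {C // C ∈ S} → ℕ := fun C D => clash C.1 D.1

/-- The budget of a clause-set. -/
noncomputable def bS (S : Finset (Finset Lit)) : ℕ := bud (cm S)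

theorem cm_symm (S : Finset (Finset Lit)) : ∀ i j, cm S i j = cm S j i := fun i j =>
  clash_comm i.1 j.1

theorem bS_restr (L : Finset Lit) (S : Finset (Finset Lit)) : bS (restr L S) ≤ bS S := by
  obtain ⟨f, _, hf⟩ := exists_pull L S
  have h : cm (restr L S) = fun i j => cm S (f i) (f j) := by
    funext i j
    exact hf i j
  unfold bS
  rw [h]
  exact bud_mono (cm S) (cm_symm S) f

theorem bS_mono {S' S : Finset (Finset Lit)} (h : S' ⊆ S) : bS S' ≤ bS S := by
  have h2 : cm S' = fun i j => cm S ⟨i.1, h i.2⟩ ⟨j.1, h j.2⟩ := rfl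
  unfold bS
  rw [h2]
  exact bud_mono (cm S) (cm_symm S) (fun i : {C // C ∈ S'} => (⟨i.1, h i.2⟩ : {C // C ∈ S}))

theorem bS_le {S : Finset (Finset Lit)} {r : ℕ} (h : (CM S).rank ≤ r) : bS S ≤ Bd r :=
  bud_le (cm S) (cm_symm S) (by exact h)

/-- A private pair determines the values of all literals of the clause. -/
theorem Priv.tr {τ : Var → Bool} {x : Lit} {C : Finset Lit} (h : Priv τ x C) :
    ∀ y ∈ priv x C, Tr τ y := by
  intro y hy
  unfold priv at hy
  rw [Finset.mem_insert, Finset.mem_image] at hy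
  rcases hy with rfl | ⟨z, hz, rfl⟩
  · exact (h.2 _ h.1).2 rfl
  · rw [Finset.mem_erase] at hz
    rw [Tr_neg]
    intro ht
    exact hz.1 ((h.2 z hz.2).1 ht)

/-- A survivor of a private pair clashes with the clause at most in `x`. -/
theorem clash_priv {L : Finset Lit} {x : Lit} {C D : Finset Lit} (hx : x ∈ C)
    (hL : priv x C ⊆ L) (hD : ∀ y ∈ D, y ∉ L) : clash C D = if neg x ∈ D then 1 else 0 := by
  have key : ∀ y ∈ C, neg y ∈ D → y = x := by
    intro y hy hn
    by_contra hne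
    apply hD _ hn
    apply hL
    unfold priv
    rw [Finset.mem_insert, Finset.mem_image]
    exact Or.inr ⟨y, Finset.mem_erase.2 ⟨hne, hy⟩, rfl⟩
  unfold clash
  split_ifs with h
  · rw [Finset.card_eq_one]
    refine ⟨x, ?_⟩
    ext y
    rw [Finset.mem_filter, Finset.mem_singleton]
    constructor
    · rintro ⟨h1, h2⟩; exact key y h1 h2
    · rintro rfl; exact ⟨hx, h⟩
  · rw [Finset.card_eq_zero, Finset.filter_eq_empty_iff]
    intro y hy hn
    have := key y hy hn
    rw [this] at hn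
    exact h hn

end PHR
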