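import Pool.Agent.PHR.Lists

/-!
# Soundness: if the algorithm answers `true` then the clause-set is satisfiable
-/

namespace PHR

open Finset

/-- `τ` satisfies all clauses of a list. -/
def ModL (τ : Var → Bool) (G : List (List Lit)) : Prop := ∀ C ∈ G, ∃ x ∈ C, Tr τ x

theorem snd_neg_neg (x : Lit) : neg (neg x) = x := by
  cases x with
  | mk v s => simp [neg]

theorem snd_mm_iff (x : Lit) (C : List Lit) : mm x C = true ↔ x ∈ C := by
  unfold mm
  rw [List.any_eq_true]
  constructor
  · rintro ⟨y, hy, h⟩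
    have h' : y = x := of_decide_eq_true h
    exact h' ▸ hy
  · intro h
    exact ⟨x, h, decide_eq_true rfl⟩

theorem snd_mm_false_iff (x : Lit) (C : List Lit) : mm x C = false ↔ x ∉ C := by
  rw [← snd_mm_iff x C]
  simp

theorem snd_Tr_neg (τ : Var → Bool) (x : Lit) : Tr τ (neg x) ↔ ¬ Tr τ x := by
  unfold Tr neg
  cases τ x.1 <;> cases x.2 <;> simp

theorem mod_toSet (τ : Var → Bool) (G : List (List Lit)) : Mod τ (toSet G) ↔ ModL τ G := by
  unfold Mod ModL toSet
  constructor
  · intro h C hC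
    obtain ⟨x, hx, hT⟩ := h C.toFinset (by
      rw [List.mem_toFinset, List.mem_map]
      exact ⟨C, hC, rfl⟩)
    exact ⟨x, by simpa using hx, hT⟩
  · intro h C hC
    rw [List.mem_toFinset, List.mem_map] at hC
    obtain ⟨C', hC', rfl⟩ := hC
    obtain ⟨x, hx, hT⟩ := h C' hC'
    exact ⟨x, by simpa using hx, hT⟩

/-- Make all literals of `L` true. -/
def ext (L : List Lit) (τ : Var → Bool) (v : Var) : Bool :=
  bif mm (v, true) L then true else bif mm (v, false) L then false else τ v

theorem snd_consL_iff (L : List Lit) : consL L = true ↔ ∀ x ∈ L, neg x ∉ L := by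
  unfold consL
  rw [List.all_eq_true]
  apply forall_congr'
  intro x
  apply imp_congr Iff.rfl
  rw [Bool.not_eq_true', snd_mm_false_iff]

theorem ext_true {L : List Lit} (hL : ∀ x ∈ L, neg x ∉ L) (τ : Var → Bool) {x : Lit}
    (hx : x ∈ L) : Tr (ext L τ) x := by
  obtain ⟨v, s⟩ := x
  unfold Tr ext
  cases s with
  | true =>
    have : mm (v, true) L = true := (snd_mm_iff _ _).2 hx
    simp [this]
  | false =>
    have h1 : mm (v, false) L = true := (snd_mm_iff _ _).2 hx
    have h2 : mm (v, true) L = false := by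
      rw [snd_mm_false_iff]
      have := hL _ hx
      simpa [neg] using this
    simp [h1, h2]

theorem ext_other {L : List Lit} (τ : Var → Bool) {x : Lit}
    (hx : x ∉ L) (hx' : neg x ∉ L) : Tr (ext L τ) x ↔ Tr τ x := by
  obtain ⟨v, s⟩ := x
  have h1 : mm (v, true) L = false := by
    rw [snd_mm_false_iff]
    cases s with
    | true => exact hx
    | false => simpa [neg] using hx'
  have h2 : mm (v, false) L = false := by
    rw [snd_mm_false_iff]
    cases s with
    | true => simpa [neg] using hx'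
    | false => exact hx
  unfold Tr ext
  simp [h1, h2]

theorem restr_sound {L : List Lit} (hL : ∀ x ∈ L, neg x ∉ L) {G : List (List Lit)}
    {τ : Var → Bool} (h : ModL τ (restrL L G)) : ModL (ext L τ) G := by
  intro C hC
  by_cases hm : ∃ x ∈ C, x ∈ L
  · obtain ⟨x, hxC, hxL⟩ := hm
    exact ⟨x, hxC, ext_true hL τ hxL⟩
  · have hm' : ∀ x ∈ C, x ∉ L := fun x hx hxL => hm ⟨x, hx, hxL⟩
    have hmem : C.filter (fun x => !(mm (neg x) L)) ∈ restrL L G := by
      unfold restrL
      rw [List.mem_map]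
      refine ⟨C, ?_, rfl⟩
      rw [List.mem_filter]
      refine ⟨hC, ?_⟩
      rw [List.all_eq_true]
      intro x hx
      rw [Bool.not_eq_true', snd_mm_false_iff]
      exact hm' x hx
    obtain ⟨x, hx, hT⟩ := h _ hmem
    rw [List.mem_filter, Bool.not_eq_true', snd_mm_false_iff] at hx
    exact ⟨x, hx.1, (ext_other τ (hm' x hx.1) hx.2).2 hT⟩

/-- Extend a satisfying assignment of the restriction. -/
theorem modL_of_restrL {L : List Lit} (hL : consL L = true) {G : List (List Lit)}
    (h : ∃ τ, ModL τ (restrL L G)) : ∃ τ, (∀ x ∈ L, Tr τ x) ∧ ModL τ G := by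
  obtain ⟨τ, hτ⟩ := h
  have hL' := (snd_consL_iff _).1 hL
  exact ⟨ext L τ, fun x hx => ext_true hL' τ hx, restr_sound hL' hτ⟩

theorem cl_ne_zero {C D : List Lit} {x : Lit} (hx : x ∈ C) (hD : neg x ∈ D) : cl C D ≠ 0 := by
  unfold cl
  intro h
  have h0 := List.length_eq_zero_iff.1 h
  have : x ∈ C.filter (fun x => mm (neg x) D) := by
    rw [List.mem_filter]
    exact ⟨hx, (snd_mm_iff _ _).2 hD⟩
  rw [h0] at this
  exact absurd this (List.not_mem_nil)

theorem cl_ne_zero_exists {C D : List Lit} (h : cl C D ≠ 0) : ∃ x ∈ C, neg x ∈ D := by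
  unfold cl at h
  have h0 : C.filter (fun x => mm (neg x) D) ≠ [] := fun h' => h (by rw [h']; rfl)
  obtain ⟨x, hx⟩ := List.exists_mem_of_ne_nil _ h0
  rw [List.mem_filter] at hx
  exact ⟨x, hx.1, (snd_mm_iff _ _).1 hx.2⟩

theorem mem_redL {G : List (List Lit)} {C : List Lit} :
    C ∈ redL G ↔ C ∈ G ∧ ∃ D ∈ G, cl C D ≠ 0 := by
  unfold redL
  rw [List.mem_filter, List.any_eq_true]
  apply and_congr Iff.rfl
  constructor
  · rintro ⟨D, hD, h⟩
    exact ⟨D, hD, by simpa using h⟩
  · rintro ⟨D, hD, h⟩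
    exact ⟨D, hD, by simpa using h⟩

/-- Clauses without clash can be deleted (pure literals): set all literals of the deleted nonempty
clauses to true; their complements do not occur in `F`. -/
theorem modL_of_redL {F : List (List Lit)} (hne : ∀ C ∈ F, C ≠ [])
    (h' : ∃ τ, ModL τ (redL F)) : ∃ τ, ModL τ F := by
  classical
  obtain ⟨τ, h⟩ := h'
  let L : List Lit := (F.filter (fun C => !(decide (C ∈ redL F)))).flatten
  have hLmem : ∀ x, x ∈ L ↔ ∃ C ∈ F, C ∉ redL F ∧ x ∈ C := by
    intro x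
    simp only [L, List.mem_flatten, List.mem_filter, Bool.not_eq_true', decide_eq_false_iff_not]
    constructor
    · rintro ⟨C, ⟨h1, h2⟩, h3⟩
      exact ⟨C, h1, h2, h3⟩
    · rintro ⟨C, h1, h2, h3⟩
      exact ⟨C, ⟨h1, h2⟩, h3⟩
  have key : ∀ x ∈ L, ∀ D ∈ F, neg x ∉ D := by
    intro x hx D hD hn
    obtain ⟨C, hC, hCr, hxC⟩ := (hLmem x).1 hx
    exact hCr (mem_redL.2 ⟨hC, D, hD, cl_ne_zero hxC hn⟩)
  have hL : ∀ x ∈ L, neg x ∉ L := by
    intro x hx hn
    obtain ⟨D, hD, -, hxD⟩ := (hLmem _).1 hn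
    exact key x hx D hD hxD
  refine ⟨ext L τ, ?_⟩
  intro C hC
  by_cases hr : C ∈ redL F
  · obtain ⟨x, hx, hT⟩ := h C hr
    by_cases hxL : x ∈ L
    · exact ⟨x, hx, ext_true hL τ hxL⟩
    · have hn : neg x ∉ L := by
        intro hn
        have := key _ hn C hC
        rw [snd_neg_neg] at this
        exact this hx
      exact ⟨x, hx, (ext_other τ hxL hn).2 hT⟩
  · obtain ⟨x, hx⟩ := List.exists_mem_of_ne_nil _ (hne C hC)
    exact ⟨x, hx, ext_true hL τ ((hLmem x).2 ⟨C, hC, hr, hx⟩)⟩

theorem pat_mem (D t : List Lit) : ∀ q ∈ t, q ∈ pat D t ∨ neg q ∈ pat D t := by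
  intro q hq
  have agr_or : ∀ p : Lit, agr D p = p ∨ agr D p = neg p := by
    intro p
    unfold agr
    cases mm (neg p) D <;> simp
  cases t with
  | nil => exact absurd hq (List.not_mem_nil)
  | cons p c =>
    have hp : pat D (p :: c) = neg (agr D p) :: c.map (agr D) := rfl
    rw [hp]
    rcases List.mem_cons.1 hq with rfl | hq
    · rcases agr_or q with h | h
      · right
        rw [h]
        exact List.mem_cons_self
      · left
        rw [h, snd_neg_neg]
        exact List.mem_cons_self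
    · rcases agr_or q with h | h
      · left
        exact List.mem_cons_of_mem _ (List.mem_map.2 ⟨q, hq, h⟩)
      · right
        exact List.mem_cons_of_mem _ (List.mem_map.2 ⟨q, hq, h⟩)

theorem mem_exL {U : List (List Lit)} {A : List Lit} {C : List Lit} {x y : Lit}
    (hC : C ∈ U) (hx : x ∈ C) (hxA : x ∈ A) (hy : y ∈ C) (hne : y ≠ x) : neg y ∈ exL U A := by
  unfold exL
  rw [List.mem_flatMap]
  refine ⟨C, hC, ?_⟩
  rw [List.mem_flatMap]
  refine ⟨x, hx, ?_⟩
  rw [(snd_mm_iff x A).2 hxA, cond_true, List.mem_map]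
  refine ⟨y, ?_, rfl⟩
  rw [List.mem_filter]
  exact ⟨hy, by simpa using hne⟩

theorem snd_mem_clsL {G : List (List Lit)} {C0 C : List Lit} :
    C ∈ clsL G C0 ↔ C ∈ G ∧ ∀ E ∈ G, cl C E = cl C0 E := by
  unfold clsL
  rw [List.mem_filter, List.all_eq_true]
  apply and_congr Iff.rfl
  constructor
  · intro h E hE
    exact of_decide_eq_true (h E hE)
  · intro h E hE
    exact decide_eq_true (h E hE)

/-- The charging argument. `A` is a consistent pattern on `t` (every `q ∈ t` has `q` or `neg q` in `A`),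
`τ` makes `A` and `exL (clsL G C0) A` true and satisfies `zerL G C0`. If `τ` falsifies `E ∈ G`, then
`E ∈ nonL G C0`; for `q ∈ t`: if `neg q ∈ E` then `neg q` is false, `q` true, so `q ∈ A`; if `q ∈ A`,
take `C ∈ clsL G C0` with `q ∈ C`; `cl C E = cl C0 E ≠ 0` gives `y ∈ C`, `neg y ∈ E`, so `y` is true, so
`y = q`. Hence `neg q ∈ E ↔ q ∈ A` on `t`, against `okL`. -/
theorem charging {G : List (List Lit)} {C0 : List Lit} {t A : List Lit}
    (ht : ∀ q ∈ t, q ∈ (clsL G C0).flatten) (hA : ∀ q ∈ t, q ∈ A ∨ neg q ∈ A)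
    (hok : okL (nonL G C0) t A = true) {τ : Var → Bool}
    (hτ : ∀ x ∈ A ++ exL (clsL G C0) A, Tr τ x) (hz : ModL τ (zerL G C0)) : ModL τ G := by
  intro E hEG
  by_contra hfal
  have hfal' : ∀ x ∈ E, ¬ Tr τ x := fun x hx hT => hfal ⟨x, hx, hT⟩
  have hcl : cl C0 E ≠ 0 := by
    intro h0
    refine hfal (hz E ?_)
    unfold zerL
    rw [List.mem_filter]
    exact ⟨hEG, decide_eq_true h0⟩
  have hEN : E ∈ nonL G C0 := by
    unfold nonL
    rw [List.mem_filter]
    exact ⟨hEG, by simpa using hcl⟩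
  unfold okL at hok
  rw [List.all_eq_true] at hok
  have h1 := hok E hEN
  rw [List.any_eq_true] at h1
  obtain ⟨q, hq, hx⟩ := h1
  have hagree : (neg q ∈ E) ↔ (q ∈ A) := by
    constructor
    · intro hn
      have hq1 : Tr τ q := by
        have := hfal' _ hn
        rw [snd_Tr_neg, not_not] at this
        exact this
      rcases hA q hq with h | h
      · exact h
      · exact absurd hq1 ((snd_Tr_neg τ q).1 (hτ _ (List.mem_append_left _ h)))
    · intro hqA
      obtain ⟨C, hC, hqC⟩ := List.mem_flatten.1 (ht q hq)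
      have hCE : cl C E ≠ 0 := by
        rw [(snd_mem_clsL.1 hC).2 E hEG]
        exact hcl
      obtain ⟨y, hy, hyE⟩ := cl_ne_zero_exists hCE
      have hyT : Tr τ y := by
        have := hfal' _ hyE
        rw [snd_Tr_neg, not_not] at this
        exact this
      by_cases hyq : y = q
      · rw [← hyq]
        exact hyE
      · have := hτ _ (List.mem_append_right _ (mem_exL hC hqC hqA hy hyq))
        exact absurd hyT ((snd_Tr_neg τ y).1 this)
  by_cases hqA : q ∈ A
  · rw [(snd_mm_iff _ _).2 hqA, (snd_mm_iff _ _).2 (hagree.2 hqA)] at hx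
    simp at hx
  · rw [(snd_mm_false_iff _ _).2 hqA,
      (snd_mm_false_iff _ _).2 (fun h => hqA (hagree.1 h))] at hx
    simp at hx

theorem snd_tails_mem {α : Type} {t l : List α} (h : t ∈ l.tails) {q : α} (hq : q ∈ t) : q ∈ l :=
  ((List.mem_tails t l).1 h).subset hq

/-- Every guess is sound. -/
theorem cands_sound {G : List (List Lit)} {p : List Lit × List (List Lit)} (hp : p ∈ cands G)
    (hc : consL p.1 = true) (h : ∃ τ, ModL τ (restrL p.1 p.2)) : ∃ τ, ModL τ G := by
  obtain ⟨τ, hL, hmod⟩ := modL_of_restrL hc h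
  refine ⟨τ, ?_⟩
  unfold cands at hp
  rcases List.mem_append.1 hp with hp | hp
  · -- candG
    have hG : p.2 = G := by
      unfold candG at hp
      obtain ⟨C, -, hp⟩ := List.mem_flatMap.1 hp
      obtain ⟨x, -, hp⟩ := List.mem_flatMap.1 hp
      obtain ⟨C', -, hp⟩ := List.mem_flatMap.1 hp
      obtain ⟨y, -, hp⟩ := List.mem_map.1 hp
      rw [← hp]
    rw [hG] at hmod
    exact hmod
  rcases List.mem_append.1 hp with hp | hp
  · have hG : p.2 = G := by
      unfold candO at hp
      obtain ⟨C0, -, hp⟩ := List.mem_flatMap.1 hp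
      obtain ⟨D, -, hp⟩ := List.mem_map.1 hp
      rw [← hp]
    rw [hG] at hmod
    exact hmod
  · unfold candN at hp
    obtain ⟨C0, -, hp⟩ := List.mem_flatMap.1 hp
    obtain ⟨D, -, hp⟩ := List.mem_flatMap.1 hp
    obtain ⟨t, htt, hp⟩ := List.mem_flatMap.1 hp
    cases hok : okL (nonL G C0) t (pat D t) with
    | false =>
      rw [hok, cond_false] at hp
      exact absurd hp (List.not_mem_nil)
    | true =>
      rw [hok, cond_true, List.mem_singleton] at hp
      have h1 : p.1 = pat D t ++ exL (clsL G C0) (pat D t) := by rw [hp]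
      have h2 : p.2 = zerL G C0 := by rw [hp]
      rw [h2] at hmod
      rw [h1] at hL
      exact charging (fun q hq => snd_tails_mem htt hq) (pat_mem D t) hok hL hmod

theorem solve_soundL : ∀ (d : ℕ) (F : List (List Lit)), solve d F = true → ∃ τ, ModL τ F := by
  intro d
  induction d with
  | zero =>
    intro F h
    exact absurd h (by simp [solve])
  | succ d ih =>
    intro F h
    rw [solve, Bool.and_eq_true] at h
    obtain ⟨h1, h2⟩ := h
    have hne : ∀ C ∈ F, C ≠ [] := by
      intro C hC h0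
      rw [Bool.not_eq_true', List.any_eq_false] at h1
      exact h1 C hC (by rw [h0]; rfl)
    rw [Bool.or_eq_true] at h2
    refine modL_of_redL hne ?_
    rcases h2 with h2 | h2
    · have hnil : redL F = [] := List.isEmpty_iff.1 h2
      refine ⟨fun _ => true, ?_⟩
      rw [hnil]
      intro C hC
      exact absurd hC (List.not_mem_nil)
    · rw [List.any_eq_true] at h2
      obtain ⟨p, hp, h3⟩ := h2
      rw [Bool.and_eq_true] at h3
      exact cands_sound hp h3.1 (ih _ h3.2)

/-- **Soundness.** If the algorithm answers `true`, the clause-set is satisfiable. -/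
theorem solve_sound (d : ℕ) (F : List (List Lit)) (h : solve d F = true) : Sat (toSet F) := by
  obtain ⟨τ, hτ⟩ := solve_soundL d F h
  exact ⟨τ, (mod_toSet τ F).2 hτ⟩

end PHR
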