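import Pool.Agent.PHR.Step20

/-!
# The step lemma

Choose `C0`: if some clause of `S` has a row with all entries at most 1, take one whose row is minimal
among these rows (pointwise order), otherwise any clause. `V = vs S C0`; two clauses of the class of
`C0` do not clash, so `V` contains no complementary pair. Let `τ` be satisfying with a minimal number of
true literals in `V`. Flipping a true literal `x` of `V` gives an assignment with fewer true literals
in `V`, so it falsifies some `D` in `S`: `Priv τ x D`.
(1) Some `x ∈ V` true, `Priv τ x D` with `D ∉ cls S C0` or row of `C0` not 0/1: first alternative with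
`C = C' = D`: if row of `D` is not 0/1 use `bud_new` (`clash_priv`); if it is 0/1 (then row of `C0` is
0/1) minimality of `C0` gives an entry with `row D > row C0`, and on survivors
`row D = [neg x ∈ E] ≤ row C0` because `x` lies in a clause of the class of `C0`: `bud_ord`.
(2) Otherwise row of `C0` is 0/1 and all private `D` of true `x ∈ V` are in the class.
(2a) a clause `C1` of the class with two true literals `x ≠ y`: private pairs `(x,C)`, `(y,C')` in the
class; survivors have `row C0 = [neg x ∈ E] = [neg y ∈ E]` and `row C0 = clash C1 E ≥` their sum, so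
`row C0 = 0` on survivors: `bud_zero`.
(2b) otherwise every true literal `x` of a clause `C` of the class is its only true literal. If some
`D ∈ S` has `Tr τ p ↔ neg p ∈ D` on `V`: second alternative, `bud_kill` (every clause of the class has
a true literal, which is in `old V D`, so it does not survive). Otherwise third alternative;
`bud_zero` for `zer S C0`.
-/

namespace PHR

open Finset

theorem step {S : Finset (Finset Lit)} (hcl : ∀ C ∈ S, IsClause C) (hne : S.Nonempty)
    (hrow : ∀ C ∈ S, ∃ D ∈ S, clash C D ≠ 0) (hsat : Sat S) :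
    (∃ τ, Mod τ S ∧ ∃ C ∈ S, ∃ C' ∈ S, ∃ x y, Priv τ x C ∧ Priv τ y C' ∧
      bS (restr (priv x C ∪ priv y C') S) < bS S) ∨
    (∃ τ, Mod τ S ∧ ∃ C0 ∈ S, ∃ D ∈ S, (∀ p ∈ vs S C0, (Tr τ p ↔ neg p ∈ D)) ∧
      bS (restr (old (vs S C0) D) S) < bS S) ∨
    (∃ τ, Mod τ S ∧ ∃ C0 ∈ S, (∀ C ∈ cls S C0, ∀ x ∈ C, Tr τ x → Priv τ x C) ∧
      (∀ D ∈ S, ¬ ∀ p ∈ vs S C0, (Tr τ p ↔ neg p ∈ D)) ∧
      ∀ L, bS (restr L (zer S C0)) < bS S) := step20 hcl hne hrow hsat

end PHR
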