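import Pool.Agent.PHR.Step75

namespace PHR

open Finset

open Classical in
theorem exists_min_mod {S : Finset (Finset Lit)} (hsat : Sat S) (V : Finset Lit) :
    ∃ τ, Mod τ S ∧ ∀ τ', Mod τ' S → (V.filter (Tr τ)).card ≤ (V.filter (Tr τ')).card := by
  have hex : ∃ n, ∃ τ, Mod τ S ∧ (V.filter (Tr τ)).card = n := by
    obtain ⟨τ, hτ⟩ := hsat
    exact ⟨_, τ, hτ, rfl⟩
  obtain ⟨τ, hτ, hc⟩ := Nat.find_spec hex
  refine ⟨τ, hτ, fun τ' hτ' => ?_⟩
  rw [hc]
  exact Nat.find_min' hex ⟨τ', hτ', rfl⟩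

theorem vs_nocompl {S : Finset (Finset Lit)} (hcl : ∀ C ∈ S, IsClause C) {C0 : Finset Lit}
    (h0 : C0 ∈ S) {x : Lit} (hx : x ∈ vs S C0) : neg x ∉ vs S C0 := by
  intro hnx
  unfold vs at hx hnx
  rw [Finset.mem_biUnion] at hx hnx
  obtain ⟨C, hC, hxC⟩ := hx
  obtain ⟨C', hC', hxC'⟩ := hnx
  simp only [id] at hxC hxC'
  unfold cls at hC hC'
  rw [Finset.mem_filter] at hC hC'
  have h1 : clash C C' ≠ 0 := clash_ne_zero.2 ⟨x, hxC, hxC'⟩
  rw [hC.2 C' hC'.1, clash_comm, hC'.2 C0 h0] at h1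
  rw [clash_ne_zero] at h1
  obtain ⟨y, hy, hny⟩ := h1
  exact hcl C0 h0 y hy hny

open Classical in
theorem exists_priv {S : Finset (Finset Lit)} {V : Finset Lit} {τ : Var → Bool} (hτ : Mod τ S)
    (hmin : ∀ τ', Mod τ' S → (V.filter (Tr τ)).card ≤ (V.filter (Tr τ')).card)
    (hV : ∀ x ∈ V, neg x ∉ V) {x : Lit} (hx : x ∈ V) (hxt : Tr τ x) :
    ∃ D ∈ S, Priv τ x D := by
  have hsame : ∀ y : Lit, y.1 = x.1 → Tr τ y → y = x := by
    intro y h1 h2
    unfold Tr at h2 hxt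
    rw [h1, hxt] at h2
    exact Prod.ext h1 h2.symm
  have hτ' : ∀ y : Lit, y.1 ≠ x.1 → (Tr (Function.update τ x.1 (!x.2)) y ↔ Tr τ y) := by
    intro y h1
    unfold Tr
    rw [Function.update_of_ne h1]
  have hneg : ∀ y : Lit, y.1 = x.1 → Tr (Function.update τ x.1 (!x.2)) y → y = neg x := by
    intro y h1 h2
    unfold Tr at h2
    rw [h1, Function.update_self] at h2
    exact Prod.ext h1 h2.symm
  have hlt : (V.filter (Tr (Function.update τ x.1 (!x.2)))).card < (V.filter (Tr τ)).card := by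
    apply Finset.card_lt_card
    rw [Finset.ssubset_iff_of_subset]
    · refine ⟨x, Finset.mem_filter.2 ⟨hx, hxt⟩, ?_⟩
      intro h
      have h2 := (Finset.mem_filter.1 h).2
      have h3 := hneg x rfl h2
      exact neg_ne x h3.symm
    · intro y hy
      rw [Finset.mem_filter] at hy ⊢
      refine ⟨hy.1, ?_⟩
      by_cases h1 : y.1 = x.1
      · have h3 := hneg y h1 hy.2
        rw [h3] at hy
        exact absurd hy.1 (hV x hx)
      · exact (hτ' y h1).1 hy.2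
  have hnot : ¬ Mod (Function.update τ x.1 (!x.2)) S := fun h => absurd (hmin _ h) (by omega)
  unfold Mod at hnot
  push Not at hnot
  obtain ⟨D, hD, hDf⟩ := hnot
  refine ⟨D, hD, ?_⟩
  have key : ∀ y ∈ D, Tr τ y → y = x := by
    intro y hy ht
    by_cases h1 : y.1 = x.1
    · exact hsame y h1 ht
    · exact absurd ((hτ' y h1).2 ht) (hDf y hy)
  obtain ⟨y, hy, hyt⟩ := hτ D hD
  have hyx := key y hy hyt
  subst hyx
  exact ⟨hy, fun z hz => ⟨key z hz, fun h => by rw [h]; exact hyt⟩⟩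

theorem step20 {S : Finset (Finset Lit)} (hcl : ∀ C ∈ S, IsClause C) (hne : S.Nonempty)
    (hrow : ∀ C ∈ S, ∃ D ∈ S, clash C D ≠ 0) (hsat : Sat S) :
    (∃ τ, Mod τ S ∧ ∃ C ∈ S, ∃ C' ∈ S, ∃ x y, Priv τ x C ∧ Priv τ y C' ∧
      bS (restr (priv x C ∪ priv y C') S) < bS S) ∨
    (∃ τ, Mod τ S ∧ ∃ C0 ∈ S, ∃ D ∈ S, (∀ p ∈ vs S C0, (Tr τ p ↔ neg p ∈ D)) ∧
      bS (restr (old (vs S C0) D) S) < bS S) ∨
    (∃ τ, Mod τ S ∧ ∃ C0 ∈ S, (∀ C ∈ cls S C0, ∀ x ∈ C, Tr τ x → Priv τ x C) ∧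
      (∀ D ∈ S, ¬ ∀ p ∈ vs S C0, (Tr τ p ↔ neg p ∈ D)) ∧
      ∀ L, bS (restr L (zer S C0)) < bS S) := by
  classical
  -- choice of C0
  obtain ⟨C0, h0, hC0⟩ : ∃ C0 ∈ S, ∀ D ∈ S, (∀ E ∈ S, clash D E ≤ 1) →
      (∀ E ∈ S, clash C0 E ≤ 1) ∧ (D ∉ cls S C0 → ∃ E ∈ S, clash C0 E < clash D E) := by
    by_cases hz : (S.filter (fun C => ∀ E ∈ S, clash C E ≤ 1)).Nonempty
    · obtain ⟨C0, hC0, hmin⟩ := Finset.exists_min_image _
        (fun C => ∑ E ∈ S, clash C E) hz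
      rw [Finset.mem_filter] at hC0
      refine ⟨C0, hC0.1, fun D hD hD1 => ⟨hC0.2, fun hDc => ?_⟩⟩
      by_contra hcon
      push Not at hcon
      have h1 := hmin D (Finset.mem_filter.2 ⟨hD, hD1⟩)
      have h2 : ∀ E ∈ S, clash D E = clash C0 E := by
        have h3 : ∑ E ∈ S, clash D E = ∑ E ∈ S, clash C0 E :=
          le_antisymm (Finset.sum_le_sum hcon) h1
        exact (Finset.sum_eq_sum_iff_of_le hcon).1 h3
      exact hDc (Finset.mem_filter.2 ⟨hD, h2⟩)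
    · obtain ⟨C0, h0⟩ := hne
      refine ⟨C0, h0, fun D hD hD1 => ?_⟩
      exact absurd ⟨D, Finset.mem_filter.2 ⟨hD, hD1⟩⟩ hz
  obtain ⟨τ, hτ, hmin⟩ := exists_min_mod hsat (vs S C0)
  have hpriv : ∀ x ∈ vs S C0, Tr τ x → ∃ D ∈ S, Priv τ x D := fun x hx hxt =>
    exists_priv hτ hmin (fun y hy => vs_nocompl hcl h0 hy) hx hxt
  by_cases hA : ∃ x ∈ vs S C0, ∃ D ∈ S, Priv τ x D ∧
      (D ∉ cls S C0 ∨ ¬ ∀ E ∈ S, clash C0 E ≤ 1)
  · -- case (1)
    left
    obtain ⟨x, hx, D, hD, hp, hor⟩ := hA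
    refine ⟨τ, hτ, D, hD, D, hD, x, x, hp, hp, ?_⟩
    obtain ⟨f, h1, h2⟩ := bS_restr_eq (priv x D ∪ priv x D) S
    rw [h2]
    have hsurv : ∀ j, clash D (f j).1 = if neg x ∈ (f j).1 then 1 else 0 := fun j =>
      clash_priv hp.1 Finset.subset_union_left (h1 j)
    by_cases h01 : ∀ E ∈ S, clash D E ≤ 1
    · obtain ⟨h3, h4⟩ := hC0 D hD h01
      have hDc : D ∉ cls S C0 := by
        rcases hor with h | h
        · exact h
        · exact absurd h3 h
      obtain ⟨E, hE, hlt⟩ := h4 hDc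
      refine bud_ord (cm S) (cm_symm S) f ⟨D, hD⟩ ⟨C0, h0⟩ (fun j => h01 _ j.2)
        (fun j => h3 _ j.2) ⟨⟨E, hE⟩, hlt⟩ (fun j => ?_)
      show clash D (f j).1 ≤ clash C0 (f j).1
      rw [hsurv j]
      split_ifs with hn
      · unfold vs at hx
        rw [Finset.mem_biUnion] at hx
        obtain ⟨C1, hC1, hxC1⟩ := hx
        simp only [id] at hxC1
        unfold cls at hC1
        rw [Finset.mem_filter] at hC1
        rw [← hC1.2 (f j).1 (f j).2]
        exact Nat.one_le_iff_ne_zero.2 (clash_ne_zero.2 ⟨x, hxC1, hn⟩)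
      · exact Nat.zero_le _
    · push Not at h01
      obtain ⟨E, hE, hlt⟩ := h01
      refine bud_new (cm S) (cm_symm S) f ⟨D, hD⟩ ⟨⟨E, hE⟩, hlt⟩ (fun j => ?_)
      show clash D (f j).1 ≤ 1
      rw [hsurv j]
      split_ifs <;> omega
  · push Not at hA
    -- all private clauses are in the class, and the row of C0 is 0/1 if some literal of V is true
    have hrow0 : ∃ x ∈ vs S C0, Tr τ x := by
      obtain ⟨x, hx, hxt⟩ := hτ C0 h0
      refine ⟨x, ?_, hxt⟩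
      unfold vs
      rw [Finset.mem_biUnion]
      exact ⟨C0, Finset.mem_filter.2 ⟨h0, fun _ _ => rfl⟩, hx⟩
    have h01 : ∀ E ∈ S, clash C0 E ≤ 1 := by
      obtain ⟨x, hx, hxt⟩ := hrow0
      obtain ⟨D, hD, hp⟩ := hpriv x hx hxt
      exact (hA x hx D hD hp).2
    by_cases hB : ∃ C1 ∈ cls S C0, ∃ x ∈ C1, ∃ y ∈ C1, x ≠ y ∧ Tr τ x ∧ Tr τ y
    · left
      obtain ⟨C1, hC1, x, hx, y, hy, hxy, hxt, hyt⟩ := hB
      have hxV : x ∈ vs S C0 := by
        unfold vs; rw [Finset.mem_biUnion]; exact ⟨C1, hC1, hx⟩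
      have hyV : y ∈ vs S C0 := by
        unfold vs; rw [Finset.mem_biUnion]; exact ⟨C1, hC1, hy⟩
      obtain ⟨C, hC, hpC⟩ := hpriv x hxV hxt
      obtain ⟨C', hC', hpC'⟩ := hpriv y hyV hyt
      have hCc := (hA x hxV C hC hpC).1
      have hCc' := (hA y hyV C' hC' hpC').1
      unfold cls at hCc hCc' hC1
      rw [Finset.mem_filter] at hCc hCc' hC1
      refine ⟨τ, hτ, C, hC, C', hC', x, y, hpC, hpC', ?_⟩
      obtain ⟨f, h1, h2⟩ := bS_restr_eq (priv x C ∪ priv y C') S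
      rw [h2]
      obtain ⟨E0, hE0, hne0⟩ := hrow C0 h0
      refine bud_zero (cm S) (cm_symm S) f ⟨C0, h0⟩ ⟨⟨E0, hE0⟩, hne0⟩ (fun j => ?_)
      show clash C0 (f j).1 = 0
      have e1 : clash C0 (f j).1 = if neg x ∈ (f j).1 then 1 else 0 := by
        rw [← hCc.2 (f j).1 (f j).2]
        exact clash_priv hpC.1 Finset.subset_union_left (h1 j)
      have e2 : clash C0 (f j).1 = if neg y ∈ (f j).1 then 1 else 0 := by
        rw [← hCc'.2 (f j).1 (f j).2]
        exact clash_priv hpC'.1 Finset.subset_union_right (h1 j)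
      by_contra hnz
      have hnx : neg x ∈ (f j).1 := by
        by_contra h
        rw [if_neg h] at e1
        exact hnz e1
      have hny : neg y ∈ (f j).1 := by
        by_contra h
        rw [if_neg h] at e2
        exact hnz e2
      have e3 : 2 ≤ clash C1 (f j).1 := by
        unfold clash
        have hsub : ({x, y} : Finset Lit) ⊆ C1.filter (fun x => neg x ∈ (f j).1) := by
          intro z hz
          rw [Finset.mem_insert, Finset.mem_singleton] at hz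
          rw [Finset.mem_filter]
          rcases hz with rfl | rfl
          · exact ⟨hx, hnx⟩
          · exact ⟨hy, hny⟩
        calc 2 = ({x, y} : Finset Lit).card := (Finset.card_pair hxy).symm
          _ ≤ _ := Finset.card_le_card hsub
      rw [hC1.2 (f j).1 (f j).2] at e3
      have := h01 (f j).1 (f j).2
      omega
    · right
      push Not at hB
      refine step_2b hrow hτ h0 h01 (fun C hC x hx hxt => ⟨hx, fun y hy => ⟨fun hyt => ?_, ?_⟩⟩)
      · by_contra hne'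
        exact hB C hC y hy x hx hne' hyt hxt
      · rintro rfl; exact hxt

end PHR
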