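import Pool.Agent.PHR.Restr

namespace PHR

open Finset

/-- Rewriting the budget of a restriction with the pull-back map. -/
theorem bS_restr_eq (L : Finset Lit) (S : Finset (Finset Lit)) :
    ∃ f : {C // C ∈ restr L S} → {C // C ∈ S}, (∀ C, ∀ x ∈ (f C).1, x ∉ L) ∧
      bS (restr L S) = bud (fun i j => cm S (f i) (f j)) := by
  obtain ⟨f, h1, h2⟩ := exists_pull L S
  refine ⟨f, h1, ?_⟩
  have h : cm (restr L S) = fun i j => cm S (f i) (f j) := by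
    funext i j
    exact h2 i j
  unfold bS
  rw [h]

theorem step_zero {S : Finset (Finset Lit)} {C0 : Finset Lit} (h0 : C0 ∈ S)
    (hrow : ∃ D ∈ S, clash C0 D ≠ 0) (L : Finset Lit) :
    bS (restr L (zer S C0)) < bS S := by
  obtain ⟨g, h1, h2⟩ := bS_restr_eq L (zer S C0)
  have hsub : zer S C0 ⊆ S := Finset.filter_subset _ _
  rw [h2]
  obtain ⟨D, hD, hCD⟩ := hrow
  exact bud_zero (cm S) (cm_symm S) (fun i => (⟨(g i).1, hsub (g i).2⟩ : {C // C ∈ S}))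
    ⟨C0, h0⟩ ⟨⟨D, hD⟩, hCD⟩ (fun j => (Finset.mem_filter.1 (g j).2).2)

theorem step_2b {S : Finset (Finset Lit)} (hrow : ∀ C ∈ S, ∃ D ∈ S, clash C D ≠ 0)
    {τ : Var → Bool} (hτ : Mod τ S) {C0 : Finset Lit} (h0 : C0 ∈ S)
    (h01 : ∀ E ∈ S, clash C0 E ≤ 1)
    (hcls : ∀ C ∈ cls S C0, ∀ x ∈ C, Tr τ x → Priv τ x C) :
    (∃ τ, Mod τ S ∧ ∃ C0 ∈ S, ∃ D ∈ S, (∀ p ∈ vs S C0, (Tr τ p ↔ neg p ∈ D)) ∧
      bS (restr (old (vs S C0) D) S) < bS S) ∨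
    (∃ τ, Mod τ S ∧ ∃ C0 ∈ S, (∀ C ∈ cls S C0, ∀ x ∈ C, Tr τ x → Priv τ x C) ∧
      (∀ D ∈ S, ¬ ∀ p ∈ vs S C0, (Tr τ p ↔ neg p ∈ D)) ∧
      ∀ L, bS (restr L (zer S C0)) < bS S) := by
  by_cases hD : ∃ D ∈ S, ∀ p ∈ vs S C0, (Tr τ p ↔ neg p ∈ D)
  · left
    obtain ⟨D, hD, hV⟩ := hD
    refine ⟨τ, hτ, C0, h0, D, hD, hV, ?_⟩
    obtain ⟨f, h1, h2⟩ := bS_restr_eq (old (vs S C0) D) S
    rw [h2]
    refine bud_kill (cm S) (cm_symm S) f ⟨C0, h0⟩ (fun j => h01 _ j.2) ?_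
    intro j hj
    have hin : (f j).1 ∈ cls S C0 := by
      unfold cls
      rw [Finset.mem_filter]
      exact ⟨(f j).2, fun E hE => hj ⟨E, hE⟩⟩
    obtain ⟨x, hx, hxt⟩ := hτ _ (f j).2
    have hxv : x ∈ vs S C0 := by
      unfold vs
      rw [Finset.mem_biUnion]
      exact ⟨_, hin, hx⟩
    apply h1 j x hx
    unfold old
    rw [Finset.mem_image]
    exact ⟨x, hxv, if_pos ((hV x hxv).1 hxt)⟩
  · right
    push Not at hD
    refine ⟨τ, hτ, C0, h0, hcls, ?_, step_zero h0 (hrow _ h0)⟩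
    intro D hDS hcon
    obtain ⟨p, hp, hh⟩ := hD D hDS
    have := hcon p hp
    tauto

end PHR
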